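import Mathlib

open SimpleGraph

namespace Pool.Agent.Results.MP_fc2b6d_co.Forests

/-- some host graph `G` in which every `H`-free subgraph can be strictly improved -/
def Fail {W : Type*} (H : SimpleGraph W) : Prop :=
  ∃ (V : Type) (G : SimpleGraph V), ∀ F ≤ G, H.Free F → ∃ I ≤ G, H.Free I ∧
    Cardinal.mk ↥(F.edgeSet \ I.edgeSet) < Cardinal.mk ↥(I.edgeSet \ F.edgeSet)

theorem contained_of {W V : Type*} {H : SimpleGraph W} {F : SimpleGraph V} (f : W → V)
    (hf : Function.Injective f) (h : ∀ a b, H.Adj a b → F.Adj (f a) (f b)) : H ⊑ F :=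
  ⟨⟨⟨f, fun {a b} hab => h a b hab⟩, hf⟩⟩

/-- systems of distinct representatives for large sets -/
theorem sdr {ι α : Type*} [Finite ι] (t : ι → Set α) (h : ∀ i, ∃ A : Finset α, ↑A ⊆ t i ∧
    Nat.card ι ≤ A.card) : ∃ f : ι → α, Function.Injective f ∧ ∀ i, f i ∈ t i := by
  classical
  have := Fintype.ofFinite ι
  choose A hA hc using h
  obtain ⟨f, hf, hf'⟩ := (Finset.all_card_le_biUnion_card_iff_exists_injective A).1 (by
    intro s
    rcases s.eq_empty_or_nonempty with rfl | ⟨i, hi⟩
    · simp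
    · calc s.card ≤ Fintype.card ι := Finset.card_le_univ s
        _ = Nat.card ι := (Nat.card_eq_fintype_card).symm
        _ ≤ (A i).card := hc i
        _ ≤ _ := Finset.card_le_card (Finset.subset_biUnion_of_mem A hi))
  exact ⟨f, hf, fun i => hA i (hf' i)⟩

/-- the trees of radius two: centre `c`, children `S`, further leaves `L` with parents `p` -/
structure Tree2 {W : Type*} (H : SimpleGraph W) (c : W) (S L : Finset W) (p : W → W) : Prop where
  adj_cases : ∀ a b, H.Adj a b →
    (a = c ∧ b ∈ S) ∨ (b = c ∧ a ∈ S) ∨ (b ∈ L ∧ a = p b) ∨ (a ∈ L ∧ b = p a)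
  cS : ∀ s ∈ S, H.Adj c s
  pL : ∀ l ∈ L, p l ∈ S ∧ H.Adj (p l) l
  cover : ∀ a, a = c ∨ a ∈ S ∨ a ∈ L
  hcS : c ∉ S
  hcL : c ∉ L
  disj : ∀ a ∈ S, a ∉ L
  hS : 2 ≤ S.card
  hL : 1 ≤ L.card

theorem Tree2.embed {W V : Type*} {H : SimpleGraph W} {c : W} {S L : Finset W} {p : W → W}
    (h : Tree2 H c S L p) (F : SimpleGraph V) (v : V) (u w : W → V)
    (hu : ∀ s ∈ S, F.Adj v (u s)) (huinj : ∀ s ∈ S, ∀ s' ∈ S, u s = u s' → s = s')
    (hw : ∀ l ∈ L, F.Adj (u (p l)) (w l)) (hwinj : ∀ l ∈ L, ∀ l' ∈ L, w l = w l' → l = l')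
    (hwv : ∀ l ∈ L, w l ≠ v) (hwu : ∀ l ∈ L, ∀ s ∈ S, w l ≠ u s) : H ⊑ F := by
  classical
  set f : W → V := fun a => if a = c then v else if a ∈ S then u a else w a with hf
  have fc : f c = v := by simp [hf]
  have fS : ∀ s ∈ S, f s = u s := by
    intro s hs
    have : s ≠ c := fun e => h.hcS (e ▸ hs)
    simp [hf, this, hs]
  have fL : ∀ l ∈ L, f l = w l := by
    intro l hl
    have h1 : l ≠ c := fun e => h.hcL (e ▸ hl)
    have h2 : l ∉ S := fun e => h.disj l e hl
    simp [hf, h1, h2]
  refine contained_of f ?_ ?_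
  · intro a b hab
    rcases h.cover a with rfl | ha | ha <;> rcases h.cover b with rfl | hb | hb
    · rfl
    · rw [fc, fS b hb] at hab
      exact absurd hab (hu b hb).ne
    · rw [fc, fL b hb] at hab
      exact absurd hab.symm (hwv b hb)
    · rw [fc, fS a ha] at hab
      exact absurd hab.symm (hu a ha).ne
    · rw [fS a ha, fS b hb] at hab
      exact huinj a ha b hb hab
    · rw [fS a ha, fL b hb] at hab
      exact absurd hab.symm (hwu b hb a ha)
    · rw [fc, fL a ha] at hab
      exact absurd hab (hwv a ha)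
    · rw [fS b hb, fL a ha] at hab
      exact absurd hab (hwu a ha b hb)
    · rw [fL a ha, fL b hb] at hab
      exact hwinj a ha b hb hab
  · intro a b hab
    rcases h.adj_cases a b hab with ⟨rfl, hb⟩ | ⟨rfl, ha⟩ | ⟨hb, rfl⟩ | ⟨ha, rfl⟩
    · rw [fc, fS b hb]; exact hu b hb
    · rw [fc, fS a ha]; exact (hu a ha).symm
    · rw [fL b hb, fS _ (h.pL b hb).1]; exact hw b hb
    · rw [fL a ha, fS _ (h.pL a ha).1]; exact (hw a ha).symm

/-- facilities: a finite set of clients and an index -/
abbrev Fac := Finset ℕ × ℕ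

/-- vertices of the host graph: clients, and `N + 1` vertices for every facility -/
abbrev Vx (N : ℕ) := ℕ ⊕ (Fac × Fin (N + 1))

/-- graphs on the host vertices, given by client-facility edges and edges in the cliques -/
def mk (N : ℕ) (A : ℕ → Fac → Prop) (Q : Fac → Fin (N + 1) → Fin (N + 1) → Prop) :
    SimpleGraph (Vx N) where
  Adj a b := match a, b with
    | .inl _, .inl _ => False
    | .inl x, .inr (φ, j) => j = 0 ∧ A x φ
    | .inr (φ, j), .inl x => j = 0 ∧ A x φ
    | .inr (φ, j), .inr (φ', j') => φ = φ' ∧ j ≠ j' ∧ (Q φ j j' ∨ Q φ j' j)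
  symm := ⟨by
    rintro (x | ⟨φ, j⟩) (y | ⟨φ', j'⟩) h
    · exact h
    · exact h
    · exact h
    · obtain ⟨rfl, h1, h2⟩ := h
      exact ⟨rfl, h1.symm, h2.symm⟩⟩
  loopless := ⟨by
    rintro (x | ⟨φ, j⟩) h
    · exact h
    · exact h.2.1 rfl⟩

/-- the host graph -/
def host (N : ℕ) : SimpleGraph (Vx N) := mk N (fun x φ => x ∈ φ.1) (fun _ _ _ => True)

section
variable {N : ℕ} {A : ℕ → Fac → Prop} {Q : Fac → Fin (N + 1) → Fin (N + 1) → Prop}

@[simp] theorem mk_ll (x y : ℕ) : (mk N A Q).Adj (.inl x) (.inl y) ↔ False := Iff.rfl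
@[simp] theorem mk_lr (x : ℕ) (φ : Fac) (j) :
    (mk N A Q).Adj (.inl x) (.inr (φ, j)) ↔ j = 0 ∧ A x φ := Iff.rfl
@[simp] theorem mk_rl (x : ℕ) (φ : Fac) (j) :
    (mk N A Q).Adj (.inr (φ, j)) (.inl x) ↔ j = 0 ∧ A x φ := Iff.rfl
@[simp] theorem mk_rr (φ φ' : Fac) (j j') :
    (mk N A Q).Adj (.inr (φ, j)) (.inr (φ', j')) ↔ φ = φ' ∧ j ≠ j' ∧ (Q φ j j' ∨ Q φ j' j) :=
  Iff.rfl
end

variable {N : ℕ} {F : SimpleGraph (Vx N)}

/-- the modified graph -/
def modi (N : ℕ) (F : SimpleGraph (Vx N)) (O : Finset Fac) (X : Finset ℕ) (Ψ : Finset Fac) :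
    SimpleGraph (Vx N) :=
  mk N (fun x φ => (φ ∈ Ψ ∧ x ∈ X) ∨
      (φ ∉ Ψ ∧ φ ∉ O ∧ x ∉ X ∧ F.Adj (.inl x) (.inr (φ, 0))))
    (fun φ j j' => φ ∈ O ∨ (φ ∉ O ∧ F.Adj (.inr (φ, j)) (.inr (φ, j')) ∧
      ¬ (φ ∈ Ψ ∧ (j = 0 ∨ j' = 0))))

theorem host_cases (hF : F ≤ host N) {a b : Vx N} (h : F.Adj a b) :
    (∃ x φ, x ∈ φ.1 ∧ a = .inl x ∧ b = .inr (φ, 0)) ∨
    (∃ x φ, x ∈ φ.1 ∧ b = .inl x ∧ a = .inr (φ, 0)) ∨
    (∃ φ j j', j ≠ j' ∧ a = .inr (φ, j) ∧ b = .inr (φ, j')) := by
  have h1 := hF h
  rcases a with x | ⟨φ, j⟩ <;> rcases b with y | ⟨φ', j'⟩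
  · exact absurd h1 (by simp [host])
  · obtain ⟨rfl, h2⟩ := h1
    exact .inl ⟨x, φ', h2, rfl, rfl⟩
  · obtain ⟨rfl, h2⟩ := h1
    exact .inr (.inl ⟨y, φ, h2, rfl, rfl⟩)
  · obtain ⟨rfl, h2, -⟩ := h1
    exact .inr (.inr ⟨φ, j, j', h2, rfl, rfl⟩)

theorem modi_le (hF : F ≤ host N) {O : Finset Fac} {X : Finset ℕ} {Ψ : Finset Fac}
    (hΨ : ∀ ψ ∈ Ψ, X ⊆ ψ.1) : modi N F O X Ψ ≤ host N := by
  rintro (x | ⟨φ, j⟩) (y | ⟨φ', j'⟩) h
  · exact h
  · obtain ⟨rfl, h⟩ := h
    refine ⟨rfl, ?_⟩
    rcases h with ⟨h1, h2⟩ | ⟨-, -, -, h2⟩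
    · exact hΨ _ h1 h2
    · exact (hF h2).2
  · obtain ⟨rfl, h⟩ := h
    refine ⟨rfl, ?_⟩
    rcases h with ⟨h1, h2⟩ | ⟨-, -, -, h2⟩
    · exact hΨ _ h1 h2
    · exact (hF h2).2
  · obtain ⟨rfl, h1, -⟩ := h
    exact ⟨rfl, h1, .inl trivial⟩

/-- the modification is again `H`-free -/
theorem modi_free {W : Type*} [Fintype W] [DecidableEq W] {H : SimpleGraph W} {c : W}
    {S L : Finset W} {p : W → W} (h : Tree2 H c S L p) (hN : N + 1 = S.card + L.card)
    (hFree : H.Free F) {O : Finset Fac} {X : Finset ℕ} {Ψ : Finset Fac}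
    (hO : ∀ φ ∈ O, φ ∉ Ψ) (hΨS : Ψ.card < S.card) (hΨL : Ψ.card ≤ L.card) :
    H.Free (modi N F O X Ψ) := by
  rintro ⟨f⟩
  have hinj : Function.Injective f := f.injective
  have hadj : ∀ a b, H.Adj a b → (modi N F O X Ψ).Adj (f a) (f b) := fun a b hab => f.toHom.map_adj hab
  -- the cardinality of W
  have hW : Fintype.card W = 1 + (S.card + L.card) := by
    have : (Finset.univ : Finset W) = insert c (S ∪ L) := by
      ext a
      simp only [Finset.mem_univ, Finset.mem_insert, Finset.mem_union, true_iff]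
      exact h.cover a
    rw [← Finset.card_univ, this, Finset.card_insert_of_notMem, Finset.card_union_of_disjoint]
    · ring
    · rw [Finset.disjoint_left]; exact h.disj
    · rw [Finset.mem_union]; rintro (h1 | h1)
      · exact h.hcS h1
      · exact h.hcL h1
  -- closure properties
  have clO : ∀ φ ∈ O, ∀ j b, (modi N F O X Ψ).Adj (.inr (φ, j)) b → ∃ j', b = .inr (φ, j') := by
    intro φ hφ j b hb
    rcases b with y | ⟨φ', j'⟩
    · obtain ⟨-, hb⟩ := hb
      rcases hb with ⟨h1, -⟩ | ⟨-, h1, -⟩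
      · exact absurd h1 (hO φ hφ)
      · exact absurd hφ h1
    · obtain ⟨rfl, -⟩ := hb
      exact ⟨j', rfl⟩
  have clΨ : ∀ φ ∈ Ψ, ∀ b, (modi N F O X Ψ).Adj (.inr (φ, 0)) b → ∃ x ∈ X, b = .inl x := by
    intro φ hφ b hb
    have hφO : φ ∉ O := fun h1 => hO φ h1 hφ
    rcases b with y | ⟨φ', j'⟩
    · obtain ⟨-, hb⟩ := hb
      rcases hb with ⟨-, h1⟩ | ⟨h1, -⟩
      · exact ⟨y, h1, rfl⟩
      · exact absurd hφ h1
    · obtain ⟨rfl, -, h1 | h1⟩ := hb
      · rcases h1 with h1 | ⟨-, -, h1⟩
        · exact absurd h1 hφO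
        · exact absurd ⟨hφ, .inl rfl⟩ h1
      · rcases h1 with h1 | ⟨-, -, h1⟩
        · exact absurd h1 hφO
        · exact absurd ⟨hφ, .inr rfl⟩ h1
  have clX : ∀ x ∈ X, ∀ b, (modi N F O X Ψ).Adj (.inl x) b → ∃ φ ∈ Ψ, b = .inr (φ, 0) := by
    intro x hx b hb
    rcases b with y | ⟨φ', j'⟩
    · exact absurd hb (by simp [modi])
    · obtain ⟨rfl, h1⟩ := hb
      rcases h1 with ⟨h1, -⟩ | ⟨-, -, h1, -⟩
      · exact ⟨φ', h1, rfl⟩
      · exact absurd hx h1
  by_cases c1 : ∃ φ ∈ O, ∃ j, f c = .inr (φ, j)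
  · obtain ⟨φ, hφ, j, hj⟩ := c1
    have hS : ∀ s ∈ S, ∃ j', f s = .inr (φ, j') := by
      intro s hs
      have := hadj c s (h.cS s hs)
      rw [hj] at this
      exact clO φ hφ _ _ this
    have hall : ∀ a, ∃ j', f a = .inr (φ, j') := by
      intro a
      rcases h.cover a with rfl | ha | ha
      · exact ⟨j, hj⟩
      · exact hS a ha
      · obtain ⟨j', hj'⟩ := hS _ (h.pL a ha).1
        have := hadj _ a (h.pL a ha).2
        rw [hj'] at this
        exact clO φ hφ _ _ this
    choose g hg using hall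
    have : Fintype.card W ≤ Fintype.card (Fin (N + 1)) :=
      Fintype.card_le_of_injective g fun a b hab => hinj (by rw [hg, hg, hab])
    rw [Fintype.card_fin] at this
    omega
  by_cases c2 : ∃ φ ∈ Ψ, f c = .inr (φ, 0)
  · obtain ⟨φ, hφ, hj⟩ := c2
    have hS : ∀ s ∈ S, ∃ x ∈ X, f s = .inl x := by
      intro s hs
      have := hadj c s (h.cS s hs)
      rw [hj] at this
      exact clΨ φ hφ _ this
    have hL : ∀ a ∈ insert c L, ∃ φ' ∈ Ψ, f a = .inr (φ', 0) := by
      intro a ha
      rcases Finset.mem_insert.1 ha with rfl | ha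
      · exact ⟨φ, hφ, hj⟩
      · obtain ⟨x, hx, hx'⟩ := hS _ (h.pL a ha).1
        have := hadj _ a (h.pL a ha).2
        rw [hx'] at this
        exact clX x hx _ this
    choose! g hg hg' using hL
    have : (insert c L).card ≤ Ψ.card :=
      Finset.card_le_card_of_injOn g (fun a ha => hg a ha) (fun a ha b hb hab =>
        hinj (by rw [hg' a ha, hg' b hb, hab]))
    rw [Finset.card_insert_of_notMem h.hcL] at this
    omega
  by_cases c3 : ∃ x ∈ X, f c = .inl x
  · obtain ⟨x, hx, hj⟩ := c3
    have hS : ∀ s ∈ S, ∃ φ ∈ Ψ, f s = .inr (φ, 0) := by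
      intro s hs
      have := hadj c s (h.cS s hs)
      rw [hj] at this
      exact clX x hx _ this
    choose! g hg hg' using hS
    have : S.card ≤ Ψ.card :=
      Finset.card_le_card_of_injOn g (fun a ha => hg a ha) (fun a ha b hb hab =>
        hinj (by rw [hg' a ha, hg' b hb, hab]))
    omega
  -- the remaining case
  let Bad : Vx N → Prop := fun v => (∃ φ ∈ O, ∃ j, v = .inr (φ, j)) ∨ (∃ φ ∈ Ψ, v = .inr (φ, 0)) ∨
    (∃ x ∈ X, v = .inl x)
  have clB : ∀ a b, (modi N F O X Ψ).Adj a b → Bad a → Bad b := by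
    rintro a b hab (⟨φ, hφ, j, rfl⟩ | ⟨φ, hφ, rfl⟩ | ⟨x, hx, rfl⟩)
    · obtain ⟨j', hj'⟩ := clO φ hφ j b hab
      exact .inl ⟨φ, hφ, j', hj'⟩
    · exact .inr (.inr (clΨ φ hφ b hab))
    · exact .inr (.inl (clX x hx b hab))
  have good : ∀ a b, (modi N F O X Ψ).Adj a b → ¬ Bad a → F.Adj a b := by
    intro a b hab hBad
    rcases a with x | ⟨φ, j⟩ <;> rcases b with y | ⟨φ', j'⟩
    · exact absurd hab (by simp [modi])
    · obtain ⟨rfl, ⟨-, h1⟩ | ⟨-, -, -, h1⟩⟩ := hab
      · exact absurd (.inr (.inr ⟨x, h1, rfl⟩)) hBad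
      · exact h1
    · obtain ⟨rfl, ⟨h1, -⟩ | ⟨-, -, -, h1⟩⟩ := hab
      · exact absurd (.inr (.inl ⟨φ, h1, rfl⟩)) hBad
      · exact h1.symm
    · obtain ⟨rfl, -, (h1 | ⟨-, h1, -⟩) | (h1 | ⟨-, h1, -⟩)⟩ := hab
      · exact absurd (.inl ⟨φ, h1, j, rfl⟩) hBad
      · exact h1
      · exact absurd (.inl ⟨φ, h1, j, rfl⟩) hBad
      · exact h1.symm
  have hcB : ¬ Bad (f c) := by
    rintro (h1 | h1 | h1)
    · exact c1 h1
    · exact c2 h1
    · exact c3 h1
  have hSB : ∀ s ∈ S, ¬ Bad (f s) := fun s hs hb => hcB (clB _ _ (hadj s c (h.cS s hs).symm) hb)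
  have hLB : ∀ l ∈ L, ¬ Bad (f l) := fun l hl hb =>
    hSB _ (h.pL l hl).1 (clB _ _ (hadj l _ (h.pL l hl).2.symm) hb)
  refine hFree (contained_of f hinj fun a b hab => good _ _ (hadj a b hab) ?_)
  rcases h.cover a with rfl | ha | ha
  · exact hcB
  · exact hSB a ha
  · exact hLB a ha


theorem exists_injOn {α β : Type*} (A : Finset α) (B : Finset β) (h : A.card ≤ B.card)
    [Nonempty β] : ∃ g : α → β, (∀ a ∈ A, g a ∈ B) ∧ ∀ a ∈ A, ∀ b ∈ A, g a = g b → a = b := by
  classical
  obtain ⟨g⟩ : Nonempty (A ↪ B) := Function.Embedding.nonempty_of_card_le (by simpa using h)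
  refine ⟨fun a => if ha : a ∈ A then g ⟨a, ha⟩ else Classical.arbitrary β, ?_, ?_⟩
  · intro a ha
    simp [ha]
  · intro a ha b hb hab
    simp only [ha, hb, dif_pos] at hab
    have := g.injective (Subtype.ext hab)
    simpa using this

/-- every `H`-free subgraph `I` of the host fails to improve `F` -/
def Max {W : Type*} (H : SimpleGraph W) (F : SimpleGraph (Vx N)) : Prop :=
  ∀ I ≤ host N, H.Free I →
    ¬ (Cardinal.mk ↥(F.edgeSet \ I.edgeSet) < Cardinal.mk ↥(I.edgeSet \ F.edgeSet))

theorem Max.card_le {W : Type*} {H : SimpleGraph W} (hmax : Max H F) {I : SimpleGraph (Vx N)}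
    (hI : I ≤ host N) (hIf : H.Free I) (A B : Finset (Sym2 (Vx N)))
    (hA : ∀ e ∈ A, e ∈ I.edgeSet ∧ e ∉ F.edgeSet)
    (hB : ∀ e ∈ F.edgeSet, e ∉ I.edgeSet → e ∈ B) : A.card ≤ B.card := by
  by_contra hlt
  push Not at hlt
  apply hmax I hI hIf
  calc Cardinal.mk ↥(F.edgeSet \ I.edgeSet) ≤ Cardinal.mk ↥(B : Set (Sym2 (Vx N))) :=
        Cardinal.mk_le_mk_of_subset fun e he => hB e he.1 he.2
    _ = B.card := by simp
    _ < A.card := by exact_mod_cast hlt
    _ = Cardinal.mk ↥(A : Set (Sym2 (Vx N))) := by simp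
    _ ≤ _ := Cardinal.mk_le_mk_of_subset fun e he => hA e he

open Classical in
/-- clients served by the facility `φ` -/
noncomputable def cl (F : SimpleGraph (Vx N)) (φ : Fac) : Finset ℕ :=
  φ.1.filter fun x => F.Adj (.inl x) (.inr (φ, 0))

open Classical in
/-- missing edges in the clique of `φ` -/
noncomputable def mis (F : SimpleGraph (Vx N)) (φ : Fac) : Finset (Fin (N + 1) × Fin (N + 1)) :=
  Finset.univ.filter fun q => q.1 < q.2 ∧ ¬ F.Adj (.inr (φ, q.1)) (.inr (φ, q.2))

theorem mem_cl (hF : F ≤ host N) {φ : Fac} {x : ℕ} :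
    x ∈ cl F φ ↔ F.Adj (.inl x) (.inr (φ, 0)) := by
  simp only [cl, Finset.mem_filter, and_iff_right_iff_imp]
  intro h
  exact (hF h).2

theorem mem_mis {φ : Fac} {q : Fin (N + 1) × Fin (N + 1)} :
    q ∈ mis F φ ↔ q.1 < q.2 ∧ ¬ F.Adj (.inr (φ, q.1)) (.inr (φ, q.2)) := by
  simp [mis]

/-- the edge of the host belonging to a pair in a clique -/
def qe (φ : Fac) (q : Fin (N + 1) × Fin (N + 1)) : Sym2 (Vx N) :=
  s(.inr (φ, q.1), .inr (φ, q.2))

theorem qe_inj {φ φ' : Fac} {q q' : Fin (N + 1) × Fin (N + 1)} (hq : q.1 < q.2)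
    (hq' : q'.1 < q'.2) (h : qe φ q = qe φ' q') : φ = φ' ∧ q = q' := by
  simp only [qe, Sym2.eq_iff, Sum.inr.injEq, Prod.mk.injEq] at h
  rcases h with ⟨⟨h1, h2⟩, h3, h4⟩ | ⟨⟨h1, h2⟩, h3, h4⟩
  · exact ⟨h1, Prod.ext h2 h4⟩
  · rw [h2, h4] at hq
    exact absurd hq (not_lt.2 hq'.le)

/-- closing one facility -/
theorem mis_le_cl {W : Type*} [Fintype W] [DecidableEq W] {H : SimpleGraph W} {c : W}
    {S L : Finset W} {p : W → W} (h : Tree2 H c S L p) (hN : N + 1 = S.card + L.card)
    (hF : F ≤ host N) (hFree : H.Free F) (hmax : Max H F) (φ : Fac) :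
    (mis F φ).card ≤ (cl F φ).card := by
  classical
  have hS := h.hS
  have h1 := hmax.card_le (I := modi N F {φ} ∅ ∅) (modi_le hF (by simp))
    (modi_free h hN hFree (by simp) (by rw [Finset.card_empty]; omega) (by simp))
    ((mis F φ).image (qe φ)) ((cl F φ).image fun x => s(.inl x, .inr (φ, 0))) ?_ ?_
  · rw [Finset.card_image_of_injOn] at h1
    · exact h1.trans Finset.card_image_le
    · intro q hq q' hq' hqq
      exact (qe_inj (mem_mis.1 hq).1 (mem_mis.1 hq').1 hqq).2
  · intro e he
    obtain ⟨q, hq, rfl⟩ := Finset.mem_image.1 he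
    rw [mem_mis] at hq
    constructor
    · rw [qe, mem_edgeSet]
      exact ⟨rfl, hq.1.ne, .inl (.inl (by simp))⟩
    · rw [qe, mem_edgeSet]
      exact hq.2
  · intro e
    induction e with
    | _ a b =>
      intro he hne
      rw [mem_edgeSet] at he hne
      rcases host_cases hF he with ⟨x, φ', hx, rfl, rfl⟩ | ⟨x, φ', hx, rfl, rfl⟩ |
        ⟨φ', j, j', hj, rfl, rfl⟩
      · have : φ' = φ := by
          by_contra hc
          exact hne ⟨rfl, .inr ⟨by simp, by simpa using hc, by simp, he⟩⟩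
        subst this
        rw [Finset.mem_image]
        exact ⟨x, (mem_cl hF).2 he, rfl⟩
      · have : φ' = φ := by
          by_contra hc
          exact hne ⟨rfl, .inr ⟨by simp, by simpa using hc, by simp, he.symm⟩⟩
        subst this
        rw [Finset.mem_image]
        exact ⟨x, (mem_cl hF).2 he.symm, Sym2.eq_swap⟩
      · exfalso
        apply hne
        refine ⟨rfl, hj, .inl ?_⟩
        by_cases hc : φ' ∈ ({φ} : Finset Fac)
        · exact .inl hc
        · exact .inr ⟨hc, he, by simp⟩

open Classical in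
/-- neighbours of the facility vertex in its clique -/
noncomputable def qn (F : SimpleGraph (Vx N)) (φ : Fac) : Finset (Fin (N + 1)) :=
  Finset.univ.filter fun j => F.Adj (.inr (φ, 0)) (.inr (φ, j))

open Classical in
/-- all neighbours of the facility vertex -/
noncomputable def nb (F : SimpleGraph (Vx N)) (φ : Fac) : Finset (Vx N) :=
  (cl F φ).image .inl ∪ (qn F φ).image fun j => .inr (φ, j)

theorem mem_nb (hF : F ≤ host N) {φ : Fac} {a : Vx N} (ha : a ∈ nb F φ) :
    F.Adj (.inr (φ, 0)) a ∧ ∀ ψ : Fac, a ≠ .inr (ψ, 0) := by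
  classical
  simp only [nb, Finset.mem_union, Finset.mem_image] at ha
  rcases ha with ⟨x, hx, rfl⟩ | ⟨j, hj, rfl⟩
  · exact ⟨((mem_cl hF).1 hx).symm, fun ψ => by simp⟩
  · simp only [qn, Finset.mem_filter, Finset.mem_univ, true_and] at hj
    refine ⟨hj, fun ψ => ?_⟩
    intro e
    simp only [Sum.inr.injEq, Prod.mk.injEq] at e
    rw [e.2] at hj
    exact hj.ne rfl

theorem inl_mem_nb {φ : Fac} {x : ℕ} (hx : x ∈ cl F φ) : (.inl x : Vx N) ∈ nb F φ := by
  classical
  simp only [nb, Finset.mem_union, Finset.mem_image]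
  exact .inl ⟨x, hx, rfl⟩

theorem le_card_nb {W : Type*} [Fintype W] [DecidableEq W] {H : SimpleGraph W} {c : W}
    {S L : Finset W} {p : W → W} (h : Tree2 H c S L p) (hN : N + 1 = S.card + L.card)
    (hF : F ≤ host N) (hFree : H.Free F) (hmax : Max H F) (φ : Fac) :
    N ≤ (nb F φ).card := by
  classical
  have h1 := mis_le_cl h hN hF hFree hmax φ
  have h2 : (nb F φ).card = (cl F φ).card + (qn F φ).card := by
    rw [nb, Finset.card_union_of_disjoint, Finset.card_image_of_injective _ Sum.inl_injective,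
      Finset.card_image_of_injective]
    · intro a b hab
      simpa using hab
    · rw [Finset.disjoint_left]
      rintro a ha hb
      obtain ⟨x, -, rfl⟩ := Finset.mem_image.1 ha
      obtain ⟨j, -, hj⟩ := Finset.mem_image.1 hb
      simp at hj
  have h3 : N ≤ (qn F φ).card + (mis F φ).card := by
    have h4 : (Finset.univ.erase (0 : Fin (N + 1))).card = N := by simp
    have h5 : Finset.univ.erase (0 : Fin (N + 1)) ⊆
        qn F φ ∪ (mis F φ).image Prod.snd := by
      intro j hj
      rw [Finset.mem_erase] at hj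
      rw [Finset.mem_union]
      by_cases hc : F.Adj (.inr (φ, 0)) (.inr (φ, j))
      · left
        simp [qn, hc]
      · right
        rw [Finset.mem_image]
        refine ⟨(0, j), mem_mis.2 ⟨?_, hc⟩, rfl⟩
        exact Fin.pos_iff_ne_zero.2 hj.1
    calc N = _ := h4.symm
      _ ≤ _ := Finset.card_le_card h5
      _ ≤ _ := Finset.card_union_le _ _
      _ ≤ _ := by
        gcongr
        exact Finset.card_image_le
  omega

/-- a client has fewer than `|S|` edges -/
theorem client_lt {W : Type*} [Fintype W] [DecidableEq W] {H : SimpleGraph W} {c : W}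
    {S L : Finset W} {p : W → W} (h : Tree2 H c S L p) (hN : N + 1 = S.card + L.card)
    (hF : F ≤ host N) (hFree : H.Free F) (hmax : Max H F) (x : ℕ) (A : Finset Fac)
    (hA : ∀ φ ∈ A, F.Adj (.inl x) (.inr (φ, 0))) : A.card < S.card := by
  classical
  by_contra hlt
  push Not at hlt
  have hS := h.hS
  have hL := h.hL
  obtain ⟨g, hg, hginj⟩ := exists_injOn S A hlt
  obtain ⟨w, hwinj, hw⟩ := sdr (ι := {l // l ∈ L})
    (fun l => {a | a ∈ nb F (g (p l)) ∧ a ≠ .inl x}) (by
      intro l
      refine ⟨(nb F (g (p l))).erase (.inl x), ?_, ?_⟩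
      · intro a ha
        simp only [Finset.coe_erase, Set.mem_sdiff, Finset.mem_coe, Set.mem_singleton_iff] at ha
        exact ha
      · have h1 := le_card_nb h hN hF hFree hmax (g (p l))
        have h2 := Finset.pred_card_le_card_erase (s := nb F (g (p l))) (a := (.inl x : Vx N))
        rw [Nat.card_eq_fintype_card, Fintype.card_coe]
        omega)
  have hne : Nonempty (Vx N) := ⟨.inl 0⟩
  refine hFree (h.embed F (.inl x) (fun s => .inr (g s, 0))
    (fun l => if hl : l ∈ L then w ⟨l, hl⟩ else .inl 0) ?_ ?_ ?_ ?_ ?_ ?_)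
  · intro s hs
    exact hA _ (hg s hs)
  · intro s hs s' hs' hss
    simp only [Sum.inr.injEq, Prod.mk.injEq, and_true] at hss
    exact hginj s hs s' hs' hss
  · intro l hl
    simp only [hl, dif_pos]
    exact (mem_nb hF (hw ⟨l, hl⟩).1).1
  · intro l hl l' hl' hll
    simp only [hl, hl', dif_pos] at hll
    simpa using hwinj hll
  · intro l hl
    simp only [hl, dif_pos]
    exact (hw ⟨l, hl⟩).2
  · intro l hl s hs
    simp only [hl, dif_pos]
    exact (mem_nb hF (hw ⟨l, hl⟩).1).2 _


/-- a client with more than `|L|` edges -/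
def Heavy {W : Type*} (L : Finset W) (F : SimpleGraph (Vx N)) (x : ℕ) : Prop :=
  ∃ A : Finset Fac, L.card + 1 ≤ A.card ∧ ∀ φ ∈ A, F.Adj (.inl x) (.inr (φ, 0))

open Classical in
/-- the heavy clients of a facility -/
noncomputable def hv {W : Type*} (L : Finset W) (F : SimpleGraph (Vx N)) (φ : Fac) : Finset ℕ :=
  (cl F φ).filter (Heavy L F)

/-- representatives for the leaves at heavy clients -/
theorem heavy_sdr {W : Type*} [Fintype W] [DecidableEq W] {L T : Finset W} (hT : T ⊆ L)
    (φ : Fac) (x : W → ℕ) (hx : ∀ l ∈ T, Heavy L F (x l)) :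
    ∃ w : W → Vx N, (∀ l ∈ T, F.Adj (.inl (x l)) (w l)) ∧
      (∀ l ∈ T, ∀ l' ∈ T, w l = w l' → l = l') ∧
      ∀ l ∈ T, ∃ ψ : Fac, ψ ≠ φ ∧ w l = .inr (ψ, 0) := by
  classical
  obtain ⟨w, hwinj, hw⟩ := sdr (ι := {l // l ∈ T})
    (fun l => {ψ : Fac | ψ ≠ φ ∧ F.Adj (.inl (x l)) (.inr (ψ, 0))}) (by
      rintro ⟨l, hl⟩
      obtain ⟨A, hA, hA'⟩ := hx l hl
      refine ⟨A.erase φ, ?_, ?_⟩
      · intro a ha
        simp only [Finset.coe_erase, Set.mem_sdiff, Finset.mem_coe, Set.mem_singleton_iff] at ha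
        exact ⟨ha.2, hA' a ha.1⟩
      · have h2 := Finset.pred_card_le_card_erase (s := A) (a := φ)
        have h3 := Finset.card_le_card hT
        rw [Nat.card_eq_fintype_card, Fintype.card_coe]
        omega)
  refine ⟨fun l => if hl : l ∈ T then .inr (w ⟨l, hl⟩, 0) else .inl 0, ?_, ?_, ?_⟩
  · intro l hl
    simp only [hl, dif_pos]
    exact (hw ⟨l, hl⟩).2
  · intro l hl l' hl' hll
    simp only [hl, hl', dif_pos, Sum.inr.injEq, Prod.mk.injEq, and_true] at hll
    simpa using hwinj hll
  · intro l hl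
    simp only [hl, dif_pos]
    exact ⟨_, (hw ⟨l, hl⟩).1, rfl⟩

/-- a facility has fewer heavy clients than there are inner children -/
theorem hv_lt {W : Type*} [Fintype W] [DecidableEq W] {H : SimpleGraph W} {c : W}
    {S L : Finset W} {p : W → W} (h : Tree2 H c S L p) (hN : N + 1 = S.card + L.card)
    (hF : F ≤ host N) (hFree : H.Free F) (hmax : Max H F) (φ : Fac) :
    (hv L F φ).card < (L.image p).card := by
  classical
  by_contra hlt
  push Not at hlt
  have hS := h.hS
  have hL := h.hL
  have hsub : L.image p ⊆ S := by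
    intro a ha
    obtain ⟨l, hl, rfl⟩ := Finset.mem_image.1 ha
    exact (h.pL l hl).1
  obtain ⟨g, hg, hginj⟩ := exists_injOn (L.image p) (hv L F φ) hlt
  have hgc : ∀ a ∈ L.image p, g a ∈ cl F φ := fun a ha => (Finset.mem_filter.1 (hg a ha)).1
  have hcard : (S \ L.image p).card ≤
      (nb F φ \ (L.image p).image fun a => (.inl (g a) : Vx N)).card := by
    have h1 := le_card_nb h hN hF hFree hmax φ
    have h2 : ((L.image p).image fun a => (.inl (g a) : Vx N)).card = (L.image p).card := by
      rw [Finset.card_image_of_injOn]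
      intro a ha b hb hab
      exact hginj a ha b hb (Sum.inl_injective hab)
    have h3 := Finset.card_sdiff_of_subset hsub
    have h4 := Finset.le_card_sdiff ((L.image p).image fun a => (.inl (g a) : Vx N)) (nb F φ)
    omega
  have hne : Nonempty (Vx N) := ⟨.inl 0⟩
  obtain ⟨g2, hg2, hg2inj⟩ := exists_injOn _ _ hcard
  obtain ⟨w, hw1, hw2, hw3⟩ := heavy_sdr (F := F) (L := L) (T := L) subset_rfl φ (fun l => g (p l))
    (fun l hl => (Finset.mem_filter.1 (hg _ (Finset.mem_image_of_mem p hl))).2)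
  refine hFree (h.embed F (.inr (φ, 0)) (fun s => if s ∈ L.image p then .inl (g s) else g2 s) w
    ?_ ?_ ?_ ?_ ?_ ?_)
  · intro s hs
    by_cases hc : s ∈ L.image p
    · simp only [hc, if_true]
      exact ((mem_cl hF).1 (hgc s hc)).symm
    · simp only [hc, if_false]
      exact (mem_nb hF (Finset.mem_sdiff.1 (hg2 s (Finset.mem_sdiff.2 ⟨hs, hc⟩))).1).1
  · intro s hs s' hs' hss
    by_cases hc : s ∈ L.image p <;> by_cases hc' : s' ∈ L.image p
    · simp only [hc, hc', if_true] at hss
      exact hginj s hc s' hc' (Sum.inl_injective hss)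
    · simp only [hc, hc', if_true, if_false] at hss
      exfalso
      have := (Finset.mem_sdiff.1 (hg2 s' (Finset.mem_sdiff.2 ⟨hs', hc'⟩))).2
      rw [← hss] at this
      exact this (Finset.mem_image_of_mem (fun a => (.inl (g a) : Vx N)) hc)
    · simp only [hc, hc', if_true, if_false] at hss
      exfalso
      have := (Finset.mem_sdiff.1 (hg2 s (Finset.mem_sdiff.2 ⟨hs, hc⟩))).2
      rw [hss] at this
      exact this (Finset.mem_image_of_mem (fun a => (.inl (g a) : Vx N)) hc')
    · simp only [hc, hc', if_false] at hss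
      exact hg2inj s (Finset.mem_sdiff.2 ⟨hs, hc⟩) s' (Finset.mem_sdiff.2 ⟨hs', hc'⟩) hss
  · intro l hl
    have hc : p l ∈ L.image p := Finset.mem_image_of_mem p hl
    simp only [hc, if_true]
    exact hw1 l hl
  · exact hw2
  · intro l hl
    obtain ⟨ψ, hψ, hψ'⟩ := hw3 l hl
    rw [hψ']
    simpa using hψ
  · intro l hl s hs
    obtain ⟨ψ, hψ, hψ'⟩ := hw3 l hl
    rw [hψ']
    by_cases hc : s ∈ L.image p
    · simp [hc]
    · simp only [hc, if_false]
      exact ((mem_nb hF (Finset.mem_sdiff.1 (hg2 s (Finset.mem_sdiff.2 ⟨hs, hc⟩))).1).2 ψ).symm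

/-- the main estimate: an open facility has more missing edges than heavy clients -/
theorem hv_lt_mis {W : Type*} [Fintype W] [DecidableEq W] {H : SimpleGraph W} {c : W}
    {S L : Finset W} {p : W → W} (h : Tree2 H c S L p) (hN : N + 1 = S.card + L.card)
    (hF : F ≤ host N) (hFree : H.Free F) (hmax : Max H F) (φ : Fac) (hφ : (cl F φ).Nonempty) :
    (hv L F φ).card < (mis F φ).card := by
  classical
  by_contra hlt
  push Not at hlt
  have hS := h.hS
  have hL := h.hL
  have hk := hv_lt h hN hF hFree hmax φ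
  have hadjmis : ∀ j j' : Fin (N + 1), j ≠ j' → j ∉ (mis F φ).image Prod.snd →
      j' ∉ (mis F φ).image Prod.snd → F.Adj (.inr (φ, j)) (.inr (φ, j')) := by
    intro j j' hne hj hj'
    by_contra hc
    rcases lt_or_gt_of_ne hne with hlt | hlt
    · exact hj' (Finset.mem_image.2 ⟨(j, j'), mem_mis.2 ⟨hlt, hc⟩, rfl⟩)
    · exact hj (Finset.mem_image.2 ⟨(j', j), mem_mis.2 ⟨hlt, fun e => hc e.symm⟩, rfl⟩)
  have h0 : (0 : Fin (N + 1)) ∉ (mis F φ).image Prod.snd := by
    intro hc
    obtain ⟨q, hq, hq0⟩ := Finset.mem_image.1 hc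
    have := (mem_mis.1 hq).1
    rw [hq0] at this
    exact absurd this (Fin.not_lt_zero _)
  rcases Nat.eq_zero_or_pos (hv L F φ).card with hk0 | hk0
  · -- no missing edges at all
    have hmis : mis F φ = ∅ := Finset.card_eq_zero.1 (by omega)
    rw [hmis] at hadjmis
    simp only [Finset.image_empty, Finset.notMem_empty, not_false_eq_true, true_imp_iff] at hadjmis
    obtain ⟨x, hx⟩ := hφ
    obtain ⟨l0, hl0⟩ := Finset.card_pos.1 (by omega : 0 < L.card)
    have hcardW : ((Finset.univ.erase l0).erase (p l0)).card ≤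
        (Finset.univ.erase (0 : Fin (N + 1))).card := by
      have hW : (Finset.univ : Finset W) = insert c (S ∪ L) := by
        ext a
        simp only [Finset.mem_univ, Finset.mem_insert, Finset.mem_union, true_iff]
        exact h.cover a
      have h1 : (Finset.univ : Finset W).card = 1 + (S.card + L.card) := by
        rw [hW, Finset.card_insert_of_notMem, Finset.card_union_of_disjoint]
        · ring
        · rw [Finset.disjoint_left]; exact h.disj
        · rw [Finset.mem_union]; rintro (h1 | h1)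
          · exact h.hcS h1
          · exact h.hcL h1
      have h2 : p l0 ∈ Finset.univ.erase l0 := by
        rw [Finset.mem_erase]
        exact ⟨(h.pL l0 hl0).2.ne, Finset.mem_univ _⟩
      rw [Finset.card_erase_of_mem h2, Finset.card_erase_of_mem (Finset.mem_univ _),
        Finset.card_erase_of_mem (Finset.mem_univ _), h1, Finset.card_univ, Fintype.card_fin]
      omega
    obtain ⟨g, hg, hginj⟩ := exists_injOn _ _ hcardW
    have hpl : p l0 ≠ l0 := (h.pL l0 hl0).2.ne
    set f : W → Vx N := fun a => if a = l0 then .inl x else if a = p l0 then .inr (φ, 0)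
      else .inr (φ, g a) with hf
    have hf1 : f l0 = .inl x := by simp [hf]
    have hf2 : f (p l0) = .inr (φ, 0) := by simp [hf, hpl]
    have hf3 : ∀ a, a ≠ l0 → a ≠ p l0 → f a = .inr (φ, g a) ∧ g a ≠ 0 := by
      intro a ha ha'
      refine ⟨by simp [hf, ha, ha'], ?_⟩
      have := hg a (by simp [ha, ha'])
      exact (Finset.mem_erase.1 this).1
    have hfinj : Function.Injective f := by
      intro a b hab
      by_cases ha : a = l0
      · subst ha
        by_cases hb : b = a
        · exact hb.symm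
        · exfalso
          rw [hf1] at hab
          by_cases hb' : b = p a
          · rw [hb', hf2] at hab
            simp at hab
          · rw [(hf3 b hb hb').1] at hab
            simp at hab
      · by_cases hb : b = l0
        · exfalso
          rw [hb, hf1] at hab
          by_cases ha' : a = p l0
          · rw [ha', hf2] at hab
            simp at hab
          · rw [(hf3 a ha ha').1] at hab
            simp at hab
        · by_cases ha' : a = p l0 <;> by_cases hb' : b = p l0
          · rw [ha', hb']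
          · exfalso
            rw [ha', hf2, (hf3 b hb hb').1] at hab
            simp only [Sum.inr.injEq, Prod.mk.injEq, true_and] at hab
            exact (hf3 b hb hb').2 hab.symm
          · exfalso
            rw [hb', hf2, (hf3 a ha ha').1] at hab
            simp only [Sum.inr.injEq, Prod.mk.injEq, true_and] at hab
            exact (hf3 a ha ha').2 hab
          · rw [(hf3 a ha ha').1, (hf3 b hb hb').1] at hab
            simp only [Sum.inr.injEq, Prod.mk.injEq, true_and] at hab
            exact hginj a (by simp [ha, ha']) b (by simp [hb, hb']) hab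
    have hl0adj : ∀ b, H.Adj l0 b → b = p l0 := by
      intro b hb
      rcases h.adj_cases l0 b hb with ⟨h1, -⟩ | ⟨-, h1⟩ | ⟨h1, h2⟩ | ⟨-, h1⟩
      · exact absurd hl0 (h1 ▸ h.hcL)
      · exact absurd hl0 (h.disj _ h1)
      · exact absurd hl0 (h.disj _ (h2 ▸ (h.pL b h1).1))
      · exact h1
    refine hFree (contained_of f hfinj fun a b hab => ?_)
    by_cases ha : a = l0
    · subst ha
      rw [hl0adj b hab, hf1, hf2]
      exact (mem_cl hF).1 hx
    by_cases hb : b = l0
    · subst hb
      rw [hl0adj a hab.symm, hf1, hf2]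
      exact ((mem_cl hF).1 hx).symm
    have hgen : ∀ a, a ≠ l0 → ∃ j, f a = .inr (φ, j) := by
      intro a ha
      by_cases ha' : a = p l0
      · exact ⟨0, ha' ▸ hf2⟩
      · exact ⟨_, (hf3 a ha ha').1⟩
    obtain ⟨j, hj⟩ := hgen a ha
    obtain ⟨j', hj'⟩ := hgen b hb
    rw [hj, hj']
    refine hadjmis j j' ?_
    rintro rfl
    exact hab.ne (hfinj (hj.trans hj'.symm))
  · -- heavy clients play some of the inner children
    obtain ⟨S1, hS1, hS1c⟩ := Finset.exists_subset_card_eq hk.le
    have hsub : L.image p ⊆ S := by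
      intro a ha
      obtain ⟨l, hl, rfl⟩ := Finset.mem_image.1 ha
      exact (h.pL l hl).1
    obtain ⟨g, hg, hginj⟩ := exists_injOn S1 (hv L F φ) hS1c.le
    have hgc : ∀ a ∈ S1, g a ∈ cl F φ := fun a ha => (Finset.mem_filter.1 (hg a ha)).1
    set T : Finset W := (S \ S1) ∪ L.filter (fun l => p l ∉ S1) with hT
    set W' : Finset (Fin (N + 1)) := (Finset.univ.erase 0) \ (mis F φ).image Prod.snd with hW'
    have hcard : T.card ≤ W'.card := by
      have h1 : T.card ≤ (S \ S1).card + (L.filter (fun l => p l ∉ S1)).card :=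
        Finset.card_union_le _ _
      have h2 := Finset.card_sdiff_of_subset (hS1.trans hsub)
      have h3 : S1.card ≤ (L.filter (fun l => p l ∈ S1)).card := by
        have : S1 ⊆ (L.filter (fun l => p l ∈ S1)).image p := by
          intro a ha
          obtain ⟨l, hl, rfl⟩ := Finset.mem_image.1 (hS1 ha)
          exact Finset.mem_image.2 ⟨l, Finset.mem_filter.2 ⟨hl, ha⟩, rfl⟩
        exact (Finset.card_le_card this).trans Finset.card_image_le
      have h4 := Finset.card_filter_add_card_filter_not (s := L) (fun l => p l ∈ S1)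
      have h5 := Finset.le_card_sdiff ((mis F φ).image Prod.snd)
        (Finset.univ.erase (0 : Fin (N + 1)))
      have h6 : (Finset.univ.erase (0 : Fin (N + 1))).card = N := by simp
      have h7 : ((mis F φ).image Prod.snd).card ≤ (mis F φ).card := Finset.card_image_le
      have h8 := Finset.card_le_card (hS1.trans hsub)
      rw [h6, ← hW'] at h5
      omega
    obtain ⟨g2, hg2, hg2inj⟩ := exists_injOn T W' hcard
    have hW'1 : ∀ j ∈ W', j ≠ 0 ∧ j ∉ (mis F φ).image Prod.snd := by
      intro j hj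
      rw [hW', Finset.mem_sdiff, Finset.mem_erase] at hj
      exact ⟨hj.1.1, hj.2⟩
    obtain ⟨w, hw1, hw2, hw3⟩ := heavy_sdr (F := F) (L := L)
      (T := L.filter (fun l => p l ∈ S1)) (Finset.filter_subset _ _) φ (fun l => g (p l))
      (fun l hl => (Finset.mem_filter.1 (hg _ (Finset.mem_filter.1 hl).2)).2)
    have hTS : ∀ s ∈ S, s ∉ S1 → s ∈ T := fun s hs hs' =>
      Finset.mem_union_left _ (Finset.mem_sdiff.2 ⟨hs, hs'⟩)
    have hTL : ∀ l ∈ L, p l ∉ S1 → l ∈ T := fun l hl hl' =>
      Finset.mem_union_right _ (Finset.mem_filter.2 ⟨hl, hl'⟩)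
    refine hFree (h.embed F (.inr (φ, 0)) (fun s => if s ∈ S1 then .inl (g s) else .inr (φ, g2 s))
      (fun l => if p l ∈ S1 then w l else .inr (φ, g2 l)) ?_ ?_ ?_ ?_ ?_ ?_)
    · intro s hs
      by_cases hc : s ∈ S1
      · simp only [hc, if_true]
        exact ((mem_cl hF).1 (hgc s hc)).symm
      · simp only [hc, if_false]
        have h1 := hW'1 _ (hg2 s (hTS s hs hc))
        exact hadjmis 0 _ h1.1.symm h0 h1.2
    · intro s hs s' hs' hss
      by_cases hc : s ∈ S1 <;> by_cases hc' : s' ∈ S1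
      · simp only [hc, hc', if_true] at hss
        exact hginj s hc s' hc' (Sum.inl_injective hss)
      · simp [hc, hc'] at hss
      · simp [hc, hc'] at hss
      · simp only [hc, hc', if_false, Sum.inr.injEq, Prod.mk.injEq, true_and] at hss
        exact hg2inj s (hTS s hs hc) s' (hTS s' hs' hc') hss
    · intro l hl
      by_cases hc : p l ∈ S1
      · simp only [hc, if_true]
        exact hw1 l (Finset.mem_filter.2 ⟨hl, hc⟩)
      · simp only [hc, if_false]
        have h1 := hW'1 _ (hg2 _ (hTS _ (h.pL l hl).1 hc))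
        have h2 := hW'1 _ (hg2 _ (hTL l hl hc))
        refine hadjmis _ _ ?_ h1.2 h2.2
        intro e
        exact (h.pL l hl).2.ne (hg2inj _ (hTS _ (h.pL l hl).1 hc) _ (hTL l hl hc) e)
    · intro l hl l' hl' hll
      by_cases hc : p l ∈ S1 <;> by_cases hc' : p l' ∈ S1
      · simp only [hc, hc', if_true] at hll
        exact hw2 l (Finset.mem_filter.2 ⟨hl, hc⟩) l' (Finset.mem_filter.2 ⟨hl', hc'⟩) hll
      · exfalso
        simp only [hc, hc', if_true, if_false] at hll
        obtain ⟨ψ, hψ, hψ'⟩ := hw3 l (Finset.mem_filter.2 ⟨hl, hc⟩)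
        rw [hψ'] at hll
        simp only [Sum.inr.injEq, Prod.mk.injEq] at hll
        exact hψ hll.1
      · exfalso
        simp only [hc, hc', if_true, if_false] at hll
        obtain ⟨ψ, hψ, hψ'⟩ := hw3 l' (Finset.mem_filter.2 ⟨hl', hc'⟩)
        rw [hψ'] at hll
        simp only [Sum.inr.injEq, Prod.mk.injEq] at hll
        exact hψ hll.1.symm
      · simp only [hc, hc', if_false, Sum.inr.injEq, Prod.mk.injEq, true_and] at hll
        exact hg2inj l (hTL l hl hc) l' (hTL l' hl' hc') hll
    · intro l hl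
      by_cases hc : p l ∈ S1
      · simp only [hc, if_true]
        obtain ⟨ψ, hψ, hψ'⟩ := hw3 l (Finset.mem_filter.2 ⟨hl, hc⟩)
        rw [hψ']
        simpa using hψ
      · simp only [hc, if_false]
        have h2 := hW'1 _ (hg2 _ (hTL l hl hc))
        simpa using h2.1
    · intro l hl s hs
      by_cases hc : p l ∈ S1
      · simp only [hc, if_true]
        obtain ⟨ψ, hψ, hψ'⟩ := hw3 l (Finset.mem_filter.2 ⟨hl, hc⟩)
        rw [hψ']
        by_cases hc' : s ∈ S1
        · simp [hc']
        · simp only [hc', if_false, ne_eq, Sum.inr.injEq, Prod.mk.injEq, not_and]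
          intro e
          exact absurd e hψ
      · simp only [hc, if_false]
        by_cases hc' : s ∈ S1
        · simp [hc']
        · simp only [hc', if_false, ne_eq, Sum.inr.injEq, Prod.mk.injEq, true_and]
          intro e
          exact h.disj s hs (hg2inj l (hTL l hl hc) s (hTS s hs hc') e ▸ hl)


theorem finite_D {W : Type*} [Fintype W] [DecidableEq W] {H : SimpleGraph W} {c : W}
    {S L : Finset W} {p : W → W} (h : Tree2 H c S L p) (hN : N + 1 = S.card + L.card)
    (hF : F ≤ host N) (hFree : H.Free F) (hmax : Max H F) (x : ℕ) :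
    {φ : Fac | F.Adj (.inl x) (.inr (φ, 0))}.Finite := by
  by_contra hinf
  obtain ⟨A, hA, hAc⟩ := Set.Infinite.exists_subset_card_eq (s := {φ : Fac |
    F.Adj (.inl x) (.inr (φ, 0))}) hinf S.card
  exact absurd (client_lt h hN hF hFree hmax x A fun φ hφ => hA hφ) (by omega)

/-- the final exchange -/
theorem finish {W : Type*} [Fintype W] [DecidableEq W] {H : SimpleGraph W} {c : W}
    {S L : Finset W} {p : W → W} (h : Tree2 H c S L p) (hN : N + 1 = S.card + L.card)
    (hF : F ≤ host N) (hFree : H.Free F) (hmax : Max H F) (D : ℕ → Finset Fac)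
    (hD : ∀ x φ, φ ∈ D x ↔ F.Adj (.inl x) (.inr (φ, 0))) (b : ℕ) (hbS : b < S.card)
    (hbL : b ≤ L.card) (O : Finset Fac) (X : Finset ℕ)
    (hOX : ∀ φ ∈ O, ∀ x ∈ cl F φ, x ∉ X → x ∈ hv L F φ) :
    ∑ φ ∈ O, (mis F φ).card + X.card * b ≤
      ∑ φ ∈ O, (hv L F φ).card + ∑ x ∈ X, (D x).card + b * N := by
  classical
  -- fresh facilities
  obtain ⟨J, hJ, hJc⟩ := Set.Infinite.exists_subset_card_eq
    (s := {i : ℕ | (X, i) ∉ O ∪ X.biUnion D}) (by
      have h1 : {i : ℕ | (X, i) ∈ O ∪ X.biUnion D}.Finite := by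
        apply Set.Finite.preimage _ (Finset.finite_toSet (O ∪ X.biUnion D))
        intro i _ j _ hij
        simpa using hij
      exact h1.infinite_compl) b
  set Ψ : Finset Fac := J.image fun i => (X, i) with hΨ
  have hΨc : Ψ.card = b := by
    rw [hΨ, Finset.card_image_of_injective _ fun i j hij => by simpa using hij, hJc]
  have hΨ1 : ∀ ψ ∈ Ψ, ψ.1 = X ∧ ψ ∉ O ∧ ∀ x ∈ X, ψ ∉ D x := by
    intro ψ hψ
    obtain ⟨i, hi, rfl⟩ := Finset.mem_image.1 hψ
    have h1 := hJ hi
    simp only [Finset.mem_union, Finset.mem_biUnion, not_or, not_exists, not_and,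
      Set.mem_ofPred_eq] at h1
    exact ⟨rfl, h1.1, h1.2⟩
  have hΨ2 : ∀ ψ ∈ Ψ, ∀ x, ¬ F.Adj (.inl x) (.inr (ψ, 0)) := by
    intro ψ hψ x hx
    have h1 : x ∈ ψ.1 := (hF hx).2
    rw [(hΨ1 ψ hψ).1] at h1
    exact (hΨ1 ψ hψ).2.2 x h1 ((hD x ψ).2 hx)
  have key := hmax.card_le (I := modi N F O X Ψ) (modi_le hF fun ψ hψ => (hΨ1 ψ hψ).1.ge)
    (modi_free h hN hFree (fun φ hφ hφ' => (hΨ1 φ hφ').2.1 hφ) (by omega) (by omega))
    (O.biUnion (fun φ => (mis F φ).image (qe φ)) ∪
      (X ×ˢ Ψ).image fun q => s(.inl q.1, .inr (q.2, 0)))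
    ((O.biUnion (fun φ => (hv L F φ).image fun x => s(.inl x, .inr (φ, 0))) ∪
      X.biUnion fun x => (D x).image fun φ => s(.inl x, .inr (φ, 0))) ∪
      (Ψ ×ˢ (Finset.univ.erase (0 : Fin (N + 1)))).image fun q =>
        s(.inr (q.1, 0), .inr (q.1, q.2))) ?_ ?_
  · have hA : (O.biUnion (fun φ => (mis F φ).image (qe φ)) ∪
        (X ×ˢ Ψ).image fun q => (s(.inl q.1, .inr (q.2, 0)) : Sym2 (Vx N))).card =
        ∑ φ ∈ O, (mis F φ).card + X.card * b := by
      rw [Finset.card_union_of_disjoint, Finset.card_biUnion]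
      · congr 1
        · refine Finset.sum_congr rfl fun φ _ => ?_
          rw [Finset.card_image_of_injOn]
          intro q hq q' hq' hqq
          exact (qe_inj (mem_mis.1 hq).1 (mem_mis.1 hq').1 hqq).2
        · rw [Finset.card_image_of_injective, Finset.card_product, hΨc]
          intro q q' hqq
          simpa [Prod.ext_iff] using hqq
      · intro φ _ φ' _ hne
        change Disjoint _ _
        rw [Finset.disjoint_left]
        intro e he he'
        obtain ⟨q, hq, rfl⟩ := Finset.mem_image.1 he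
        obtain ⟨q', hq', hqq⟩ := Finset.mem_image.1 he'
        exact hne (qe_inj (mem_mis.1 hq).1 (mem_mis.1 hq').1 hqq.symm).1
      · rw [Finset.disjoint_left]
        intro e he he'
        obtain ⟨φ, -, he⟩ := Finset.mem_biUnion.1 he
        obtain ⟨q, hq, rfl⟩ := Finset.mem_image.1 he
        obtain ⟨q', hq', hqq⟩ := Finset.mem_image.1 he'
        simp [qe] at hqq
    rw [hA] at key
    refine key.trans ((Finset.card_union_le _ _).trans (add_le_add
      ((Finset.card_union_le _ _).trans (add_le_add ?_ ?_)) ?_))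
    · exact Finset.card_biUnion_le.trans (Finset.sum_le_sum fun φ _ => Finset.card_image_le)
    · exact Finset.card_biUnion_le.trans (Finset.sum_le_sum fun φ _ => Finset.card_image_le)
    · refine Finset.card_image_le.trans ?_
      rw [Finset.card_product, hΨc]
      simp
  · intro e he
    rcases Finset.mem_union.1 he with he | he
    · obtain ⟨φ, hφ, he⟩ := Finset.mem_biUnion.1 he
      obtain ⟨q, hq, rfl⟩ := Finset.mem_image.1 he
      rw [mem_mis] at hq
      constructor
      · rw [qe, mem_edgeSet]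
        exact ⟨rfl, hq.1.ne, .inl (.inl hφ)⟩
      · rw [qe, mem_edgeSet]
        exact hq.2
    · obtain ⟨⟨x, ψ⟩, hq, rfl⟩ := Finset.mem_image.1 he
      rw [Finset.mem_product] at hq
      constructor
      · rw [mem_edgeSet]
        exact ⟨rfl, .inl ⟨hq.2, hq.1⟩⟩
      · rw [mem_edgeSet]
        exact hΨ2 ψ hq.2 x
  · have main : ∀ x φ, F.Adj (.inl x) (.inr (φ, 0)) →
        ¬ (modi N F O X Ψ).Adj (.inl x) (.inr (φ, 0)) →
        (s(.inl x, .inr (φ, 0)) : Sym2 (Vx N)) ∈
        (O.biUnion (fun φ => (hv L F φ).image fun x => (s(.inl x, .inr (φ, 0)) : Sym2 (Vx N))) ∪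
        X.biUnion fun x => (D x).image fun φ => s(.inl x, .inr (φ, 0))) := by
      intro x φ he hne
      rw [Finset.mem_union]
      by_cases hxX : x ∈ X
      · right
        exact Finset.mem_biUnion.2 ⟨x, hxX, Finset.mem_image.2 ⟨φ, (hD x φ).2 he, rfl⟩⟩
      · left
        have hφΨ : φ ∉ Ψ := fun h1 => hΨ2 φ h1 x he
        have hφO : φ ∈ O := by
          by_contra hc
          exact hne ⟨rfl, .inr ⟨hφΨ, hc, hxX, he⟩⟩
        exact Finset.mem_biUnion.2 ⟨φ, hφO, Finset.mem_image.2
          ⟨x, hOX φ hφO x ((mem_cl hF).2 he) hxX, rfl⟩⟩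
    intro e
    induction e with
    | _ a b' =>
      intro he hne
      rw [mem_edgeSet] at he hne
      rcases host_cases hF he with ⟨x, φ, hx, rfl, rfl⟩ | ⟨x, φ, hx, rfl, rfl⟩ |
        ⟨φ, j, j', hj, rfl, rfl⟩
      · exact Finset.mem_union_left _ (main x φ he hne)
      · rw [Sym2.eq_swap]
        exact Finset.mem_union_left _ (main x φ he.symm fun e => hne e.symm)
      · rw [Finset.mem_union]
        right
        have h1 : φ ∉ O := fun hc => hne ⟨rfl, hj, .inl (.inl hc)⟩
        have h2 : φ ∈ Ψ ∧ (j = 0 ∨ j' = 0) := by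
          by_contra hc
          exact hne ⟨rfl, hj, .inl (.inr ⟨h1, he, hc⟩)⟩
        rcases h2 with ⟨h2, rfl | rfl⟩
        · exact Finset.mem_image.2 ⟨(φ, j'), Finset.mem_product.2 ⟨h2, by simpa using hj.symm⟩, rfl⟩
        · exact Finset.mem_image.2 ⟨(φ, j), Finset.mem_product.2 ⟨h2, by simpa using hj⟩,
            Sym2.eq_swap⟩

/-- trees of radius two which are not stars fail -/
theorem Tree2.fail {W : Type*} [Fintype W] [DecidableEq W] {H : SimpleGraph W} {c : W}
    {S L : Finset W} {p : W → W} (h : Tree2 H c S L p) : Fail H := by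
  classical
  have hS := h.hS
  have hL := h.hL
  obtain ⟨N, hN⟩ : ∃ N, N + 1 = S.card + L.card := ⟨S.card + L.card - 1, by omega⟩
  refine ⟨Vx N, host N, fun F hF hFree => ?_⟩
  by_contra hcon
  have hmax : Max H F := fun I hI hIf hlt => hcon ⟨I, hI, hIf, hlt⟩
  set D : ℕ → Finset Fac := fun x => (finite_D h hN hF hFree hmax x).toFinset with hDdef
  have hD : ∀ x φ, φ ∈ D x ↔ F.Adj (.inl x) (.inr (φ, 0)) := by
    intro x φ
    simp [hDdef]
  have hDS : ∀ x, (D x).card < S.card := fun x =>
    client_lt h hN hF hFree hmax x (D x) fun φ hφ => (hD x φ).1 hφ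
  set b := min S.card (L.card + 1) - 1 with hb
  have hb1 : 1 ≤ b := by omega
  have hDb : ∀ x, ¬ Heavy L F x → (D x).card ≤ b := by
    intro x hx
    have h1 := hDS x
    have h2 : (D x).card < L.card + 1 := by
      by_contra hc
      exact hx ⟨D x, not_lt.1 hc, fun φ hφ => (hD x φ).1 hφ⟩
    omega
  by_cases hopen : {φ : Fac | (cl F φ).Nonempty}.Finite
  · -- few open facilities
    have hinf : {x : ℕ | D x = ∅}.Infinite := by
      have h1 : {x : ℕ | D x = ∅}ᶜ ⊆ ↑(hopen.toFinset.biUnion fun φ => φ.1) := by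
        intro x hx
        simp only [Set.mem_compl_iff, Set.mem_ofPred_eq, ← Finset.nonempty_iff_ne_empty] at hx
        obtain ⟨φ, hφ⟩ := hx
        rw [hD] at hφ
        rw [Finset.mem_coe, Finset.mem_biUnion]
        refine ⟨φ, ?_, (hF hφ).2⟩
        simp only [Set.Finite.mem_toFinset, Set.mem_ofPred_eq]
        exact ⟨x, (mem_cl hF).2 hφ⟩
      have h2 := (Finset.finite_toSet _).subset h1
      have h3 := h2.infinite_compl
      rwa [compl_compl] at h3
    obtain ⟨X, hX, hXc⟩ := hinf.exists_subset_card_eq (b * N + 1)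
    have key := finish h hN hF hFree hmax D hD b (by omega) (by omega) ∅ X (by simp)
    have h1 : ∑ x ∈ X, (D x).card = 0 := by
      refine Finset.sum_eq_zero fun x hx => ?_
      have : D x = ∅ := hX hx
      rw [this, Finset.card_empty]
    rw [h1, hXc] at key
    simp only [Finset.sum_empty, zero_add] at key
    have : b * N + 1 ≤ (b * N + 1) * b := Nat.le_mul_of_pos_right _ hb1
    omega
  · -- many open facilities
    obtain ⟨O, hO, hOc⟩ := Set.Infinite.exists_subset_card_eq hopen (b * N + 1)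
    set X := O.biUnion fun φ => (cl F φ).filter fun x => ¬ Heavy L F x with hX
    have key := finish h hN hF hFree hmax D hD b (by omega) (by omega) O X (by
      intro φ hφ x hx hxX
      by_contra hc
      apply hxX
      rw [hX, Finset.mem_biUnion]
      refine ⟨φ, hφ, Finset.mem_filter.2 ⟨hx, fun hh => hc ?_⟩⟩
      exact Finset.mem_filter.2 ⟨hx, hh⟩)
    have h1 : ∑ x ∈ X, (D x).card ≤ X.card * b := by
      refine Finset.sum_le_card_nsmul X _ b fun x hx => hDb x ?_
      obtain ⟨φ, -, hφ⟩ := Finset.mem_biUnion.1 hx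
      exact (Finset.mem_filter.1 hφ).2
    have h2 : ∑ φ ∈ O, (hv L F φ).card + O.card ≤ ∑ φ ∈ O, (mis F φ).card := by
      rw [Finset.card_eq_sum_ones, ← Finset.sum_add_distrib]
      exact Finset.sum_le_sum fun φ hφ => hv_lt_mis h hN hF hFree hmax φ (hO hφ)
    omega

/-- `H` is a star (possibly with isolated vertices, possibly without edges) -/
def IsStar {W : Type*} (H : SimpleGraph W) : Prop := ∃ v, ∀ a b, H.Adj a b → a = v ∨ b = v

/-- vertices with at least two neighbours -/
def inner {W : Type*} (H : SimpleGraph W) : Set W := {w | ∃ a b, a ≠ b ∧ H.Adj w a ∧ H.Adj w b}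

/-- pendant edges at every vertex -/
def pend {V K : Type*} (G : SimpleGraph V) (P : V → K → Prop) : SimpleGraph (V ⊕ (V × K)) where
  Adj a b := match a, b with
    | .inl u, .inl v => G.Adj u v
    | .inl u, .inr (v, k) => u = v ∧ P v k
    | .inr (v, k), .inl u => u = v ∧ P v k
    | .inr _, .inr _ => False
  symm := ⟨by
    rintro (u | ⟨v, k⟩) (u' | ⟨v', k'⟩) h
    · exact h.symm
    · exact h
    · exact h
    · exact h⟩
  loopless := ⟨by
    rintro (u | ⟨v, k⟩) h
    · exact G.loopless.irrefl _ h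
    · exact h⟩

section
variable {W V K : Type*} {H : SimpleGraph W}

/-- in a connected non-star every non-inner vertex has a unique neighbour and this is inner -/
theorem exists_parent (hH : H.Connected) (hs : ¬ IsStar H) (a : W) (ha : a ∉ inner H) :
    ∃ z ∈ inner H, H.Adj a z ∧ ∀ b, H.Adj a b → b = z := by
  have h1 : ∃ z, H.Adj a z := by
    by_contra hc
    push Not at hc
    apply hs
    refine ⟨a, fun u v huv => ?_⟩
    exfalso
    have h2 : H.Reachable a u := hH.preconnected a u
    obtain ⟨w⟩ := h2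
    cases w with
    | nil => exact hc _ huv
    | cons h _ => exact hc _ h
  obtain ⟨z, hz⟩ := h1
  have huniq : ∀ b, H.Adj a b → b = z := by
    intro b hb
    by_contra hc
    exact ha ⟨b, z, hc, hb, hz⟩
  refine ⟨z, ?_, hz, huniq⟩
  by_contra hzi
  apply hs
  have hz' : ∀ b, H.Adj z b → b = a := by
    intro b hb
    by_contra hc
    exact hzi ⟨b, a, hc, hb, hz.symm⟩
  -- the component is {a, z}
  have hall : ∀ u, u = a ∨ u = z := by
    intro u
    obtain ⟨w⟩ := hH.preconnected a u
    have : ∀ {x y : W} (w : H.Walk x y), (x = a ∨ x = z) → (y = a ∨ y = z) := by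
      intro x y w
      induction w with
      | nil => exact id
      | cons h _ ih =>
        rintro (rfl | rfl)
        · exact ih (.inr (huniq _ h))
        · exact ih (.inl (hz' _ h))
    exact this w (.inl rfl)
  refine ⟨a, fun u v huv => ?_⟩
  rcases hall u with rfl | rfl
  · exact .inl rfl
  · rcases hall v with rfl | rfl
    · exact .inr rfl
    · exact absurd rfl huv.ne

/-- extending a copy of the inner graph by pendant edges -/
theorem contained_of_inner [Finite W] (hH : H.Connected) (hs : ¬ IsStar H)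
    {F : SimpleGraph (V ⊕ (V × K))} (g : inner H → V) (hg : Function.Injective g)
    (hadj : ∀ a b, (H.induce (inner H)).Adj a b → F.Adj (.inl (g a)) (.inl (g b)))
    (hinf : ∀ a, {k | F.Adj (.inl (g a)) (.inr (g a, k))}.Infinite) : H ⊑ F := by
  classical
  have hpar := exists_parent hH hs
  choose z hz hz1 hz2 using hpar
  obtain ⟨k, hk, hk'⟩ := sdr (ι := {a // a ∉ inner H})
    (fun a => {k | F.Adj (.inl (g ⟨z a a.2, hz a a.2⟩)) (.inr (g ⟨z a a.2, hz a a.2⟩, k))}) (by
      intro a
      obtain ⟨A, hA, hA'⟩ := (hinf ⟨z a a.2, hz a a.2⟩).exists_subset_card_eq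
        (Nat.card {a // a ∉ inner H})
      exact ⟨A, hA, hA'.ge⟩)
  refine contained_of (fun a => if ha : a ∈ inner H then .inl (g ⟨a, ha⟩) else
    .inr (g ⟨z a ha, hz a ha⟩, k ⟨a, ha⟩)) ?_ ?_
  · intro a b hab
    by_cases ha : a ∈ inner H <;> by_cases hb : b ∈ inner H
    · simp only [ha, hb, dif_pos, Sum.inl.injEq] at hab
      simpa using hg hab
    · simp [ha, hb] at hab
    · simp [ha, hb] at hab
    · simp only [ha, hb, dif_neg, not_false_eq_true, Sum.inr.injEq, Prod.mk.injEq] at hab
      simpa using hk hab.2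
  · intro a b hab
    by_cases ha : a ∈ inner H <;> by_cases hb : b ∈ inner H
    · simp only [ha, hb, dif_pos]
      exact hadj ⟨a, ha⟩ ⟨b, hb⟩ hab
    · simp only [ha, hb, dif_pos, dif_neg, not_false_eq_true]
      have h1 := hz2 b hb a hab.symm
      have h2 := hk' ⟨b, hb⟩
      simp only [Set.mem_ofPred_eq] at h2
      have h3 : (⟨a, ha⟩ : inner H) = ⟨z b hb, hz b hb⟩ := Subtype.ext h1
      rw [h3]
      exact h2
    · simp only [ha, hb, dif_pos, dif_neg, not_false_eq_true]
      have h1 := hz2 a ha b hab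
      have h2 := hk' ⟨a, ha⟩
      simp only [Set.mem_ofPred_eq] at h2
      have h3 : (⟨b, hb⟩ : inner H) = ⟨z a ha, hz a ha⟩ := Subtype.ext h1
      rw [h3]
      exact h2.symm
    · exfalso
      have h1 := hz2 a ha b hab
      exact hb (h1 ▸ hz a ha)

/-- inner vertices are mapped to the core -/
theorem inner_inl {G : SimpleGraph V} {P : V → K → Prop} (f : H.Copy (pend G P)) {w : W}
    (hw : w ∈ inner H) : ∃ v, f w = .inl v := by
  obtain ⟨a, b, hab, ha, hb⟩ := hw
  have h1 : (pend G P).Adj (f w) (f a) := f.toHom.map_adj ha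
  have h2 : (pend G P).Adj (f w) (f b) := f.toHom.map_adj hb
  rcases hfw : f w with v | ⟨v, k⟩
  · exact ⟨v, rfl⟩
  · exfalso
    rw [hfw] at h1 h2
    apply hab
    apply f.injective
    rcases hfa : f a with u | q <;> rcases hfb : f b with u' | q'
    · rw [hfa] at h1
      rw [hfb] at h2
      have e1 : u = v := h1.1
      have e2 : u' = v := h2.1
      rw [e1, e2]
    · rw [hfb] at h2
      exact h2.elim
    · rw [hfa] at h1
      exact h1.elim
    · rw [hfa] at h1
      exact h1.elim

end

open Cardinal in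
/-- leaf removal -/
theorem leaf_step {W : Type*} [Finite W] {H : SimpleGraph W} (hH : H.Connected)
    (hs : ¬ IsStar H) (hfail : Fail (H.induce (inner H))) : Fail H := by
  classical
  obtain ⟨V, G, hG⟩ := hfail
  set K : Type := Set (V ⊕ ℕ) with hK
  refine ⟨V ⊕ (V × K), pend G (fun _ _ => True), fun F hF hFree => ?_⟩
  -- the core of `F`
  set F0 : SimpleGraph V := F.comap (fun v => (.inl v : V ⊕ (V × K))) with hF0
  have hF0le : F0 ≤ G := by
    intro a b hab
    exact hF hab
  have hbig : #(Sym2 V) < #K := by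
    have h1 : #(Sym2 V) ≤ #(V × V) := Cardinal.mk_le_of_surjective (Quot.mk_surjective)
    have h2 : #(V × V) ≤ #(V ⊕ ℕ) := by
      rw [Cardinal.mk_prod, Cardinal.lift_id, Cardinal.mk_sum]
      simp only [Cardinal.lift_id, Cardinal.mk_nat]
      have h3 : #V ≤ #V + ℵ₀ := self_le_add_right _ _
      calc #V * #V ≤ (#V + ℵ₀) * (#V + ℵ₀) := mul_le_mul' h3 h3
        _ = #V + ℵ₀ := Cardinal.mul_eq_self (self_le_add_left _ _)
    calc #(Sym2 V) ≤ #(V ⊕ ℕ) := h1.trans h2
      _ < #K := by rw [hK, Cardinal.mk_set]; exact Cardinal.cantor _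
  have hKinf : ℵ₀ ≤ #K := by
    rw [hK, Cardinal.mk_set]
    refine le_trans ?_ (Cardinal.cantor _).le
    rw [Cardinal.mk_sum]
    simp only [Cardinal.lift_id, Cardinal.mk_nat]
    exact self_le_add_left _ _
  by_cases hX : ∃ v0 : V, {k | F.Adj (.inl v0) (.inr (v0, k))}.Finite
  · -- some vertex has few pendant edges
    obtain ⟨v0, hv0⟩ := hX
    set X : Set V := {v | {k | F.Adj (.inl v) (.inr (v, k))}.Finite} with hXdef
    set J : SimpleGraph V :=
      { Adj := fun u v => F0.Adj u v ∧ u ∉ X ∧ v ∉ X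
        symm := ⟨fun u v h => ⟨h.1.symm, h.2.2, h.2.1⟩⟩
        loopless := ⟨fun u h => F0.loopless.irrefl _ h.1⟩ } with hJ
    refine ⟨pend J (fun _ _ => True), ?_, ?_, ?_⟩
    · rintro (u | ⟨v, k⟩) (u' | ⟨v', k'⟩) h
      · exact hF0le h.1
      · exact h
      · exact h
      · exact h
    · rintro ⟨f⟩
      -- every inner vertex avoids X
      have hin : ∀ w : inner H, ∃ v, f w = .inl v ∧ v ∉ X := by
        rintro ⟨w, hw⟩
        obtain ⟨v, hv⟩ := inner_inl f hw
        refine ⟨v, hv, fun hvX => hs ⟨w, ?_⟩⟩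
        -- all neighbours of `w` are leaves
        have hnb : ∀ a, H.Adj w a → ∃ k, f a = .inr (v, k) := by
          intro a ha
          have h1 : (pend J (fun _ _ => True)).Adj (f w) (f a) := f.toHom.map_adj ha
          rw [hv] at h1
          rcases hfa : f a with u | ⟨u, k⟩
          · rw [hfa] at h1
            exact absurd hvX h1.2.1
          · rw [hfa] at h1
            exact ⟨k, by rw [h1.1]⟩
        have hcl : ∀ a, H.Adj w a → ∀ b, H.Adj a b → b = w := by
          intro a ha b hb
          obtain ⟨k, hk⟩ := hnb a ha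
          have h1 : (pend J (fun _ _ => True)).Adj (f a) (f b) := f.toHom.map_adj hb
          rw [hk] at h1
          apply f.injective
          rcases hfb : f b with u | q
          · rw [hfb] at h1
            have e1 : u = v := h1.1
            rw [e1]
            exact hv.symm
          · rw [hfb] at h1
            exact h1.elim
        have hall : ∀ u, u = w ∨ H.Adj w u := by
          intro u
          obtain ⟨q⟩ := hH.preconnected w u
          have : ∀ {x y : W} (q : H.Walk x y), (x = w ∨ H.Adj w x) → (y = w ∨ H.Adj w y) := by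
            intro x y q
            induction q with
            | nil => exact id
            | cons h _ ih =>
              rintro (rfl | h1)
              · exact ih (.inr h)
              · exact ih (.inl (hcl _ h1 _ h))
          exact this q (.inl rfl)
        intro a b hab
        rcases hall a with rfl | ha
        · exact .inl rfl
        · exact .inr (hcl a ha b hab)
      choose g hg hgX using hin
      refine hFree (contained_of_inner hH hs g ?_ ?_ ?_)
      · intro a b hab
        have : f a = f b := by rw [hg, hg, hab]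
        exact Subtype.ext (f.injective this)
      · intro a b hab
        have h1 : (pend J (fun _ _ => True)).Adj (f a) (f b) := f.toHom.map_adj hab
        rw [hg, hg] at h1
        exact h1.1
      · intro a
        exact hgX a
    · -- cardinalities
      have h1 : #↥(F.edgeSet \ (pend J (fun _ (_ : K) => True)).edgeSet) ≤ #(Sym2 V) := by
        have : F.edgeSet \ (pend J (fun _ (_ : K) => True)).edgeSet ⊆
            Set.range (Sym2.map (Sum.inl : V → V ⊕ (V × K))) := by
          intro e
          induction e with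
          | _ a b =>
            rintro ⟨he, hne⟩
            rw [mem_edgeSet] at he hne
            have h2 := hF he
            rcases a with u | ⟨v, k⟩ <;> rcases b with u' | ⟨v', k'⟩
            · exact ⟨s(u, u'), by simp⟩
            · exact absurd h2 hne
            · exact absurd h2 hne
            · exact h2.elim
        exact (Cardinal.mk_le_mk_of_subset this).trans Cardinal.mk_range_le
      have h2 : #K ≤ #↥((pend J (fun _ (_ : K) => True)).edgeSet \ F.edgeSet) := by
        have h3 : #↥({k | F.Adj (.inl v0) (.inr (v0, k))}ᶜ) = #K := by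
          have : Infinite K := Cardinal.infinite_iff.2 hKinf
          exact Cardinal.mk_compl_of_infinite _
            ((Cardinal.lt_aleph0_iff_set_finite.2 hv0).trans_le hKinf)
        rw [← h3]
        refine Cardinal.mk_le_of_injective (f := fun k => ⟨s(.inl v0, .inr (v0, k.1)), ?_, ?_⟩) ?_
        · exact ⟨rfl, trivial⟩
        · exact k.2
        · intro k k' hkk
          exact Subtype.ext (by simpa using hkk)
      exact h1.trans_lt (hbig.trans_le h2)
  · -- every vertex has infinitely many pendant edges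
    push Not at hX
    have hF0free : (H.induce (inner H)).Free F0 := by
      rintro ⟨g⟩
      refine hFree (contained_of_inner hH hs g g.injective (fun a b hab => ?_) (fun a => hX _))
      exact g.toHom.map_adj hab
    obtain ⟨J, hJ, hJfree, hJlt⟩ := hG F0 hF0le hF0free
    refine ⟨pend J (fun _ _ => True), ?_, ?_, ?_⟩
    · rintro (u | ⟨v, k⟩) (u' | ⟨v', k'⟩) h
      · exact hJ h
      · exact h
      · exact h
      · exact h
    · rintro ⟨f⟩
      have hin : ∀ w : inner H, ∃ v, f w = .inl v := fun w => inner_inl f w.2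
      choose g hg using hin
      refine hJfree (contained_of g ?_ ?_)
      · intro a b hab
        have : f a = f b := by rw [hg, hg, hab]
        exact Subtype.ext (f.injective this)
      · intro a b hab
        have h1 : (pend J (fun _ _ => True)).Adj (f a) (f b) := f.toHom.map_adj hab
        rw [hg, hg] at h1
        exact h1
    · have hinj : Function.Injective (Sym2.map (Sum.inl : V → V ⊕ (V × K))) :=
        Sym2.map.injective Sum.inl_injective
      have h1 : #↥(F.edgeSet \ (pend J (fun _ (_ : K) => True)).edgeSet) ≤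
          #↥(F0.edgeSet \ J.edgeSet) := by
        have : F.edgeSet \ (pend J (fun _ (_ : K) => True)).edgeSet ⊆
            Sym2.map (Sum.inl : V → V ⊕ (V × K)) '' (F0.edgeSet \ J.edgeSet) := by
          intro e
          induction e with
          | _ a b =>
            rintro ⟨he, hne⟩
            rw [mem_edgeSet] at he hne
            have h2 := hF he
            rcases a with u | ⟨v, k⟩ <;> rcases b with u' | ⟨v', k'⟩
            · exact ⟨s(u, u'), ⟨he, hne⟩, by simp⟩
            · exact absurd h2 hne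
            · exact absurd h2 hne
            · exact h2.elim
        exact (Cardinal.mk_le_mk_of_subset this).trans Cardinal.mk_image_le
      have h2 : #↥(J.edgeSet \ F0.edgeSet) ≤
          #↥((pend J (fun _ (_ : K) => True)).edgeSet \ F.edgeSet) := by
        rw [← Cardinal.mk_image_eq hinj]
        refine Cardinal.mk_le_mk_of_subset ?_
        rintro _ ⟨e, he, rfl⟩
        induction e with
        | _ a b =>
          exact ⟨he.1, he.2⟩
      exact h1.trans_lt (hJlt.trans_le h2)

universe u

section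
variable {W : Type u} {H : SimpleGraph W}

theorem inner_nonempty (hH : H.Connected) (hs : ¬ IsStar H) : (inner H).Nonempty := by
  obtain ⟨a⟩ := hH.nonempty
  by_cases ha : a ∈ inner H
  · exact ⟨a, ha⟩
  · obtain ⟨z, hz, -⟩ := exists_parent hH hs a ha
    exact ⟨z, hz⟩

theorem inner_connected (hH : H.Connected) (hs : ¬ IsStar H) :
    (H.induce (inner H)).Connected := by
  classical
  have hne := inner_nonempty hH hs
  have hpar := exists_parent hH hs
  choose z hz hz1 hz2 using hpar
  set q : W → inner H := fun a => if ha : a ∈ inner H then ⟨a, ha⟩ else ⟨z a ha, hz a ha⟩ with hq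
  have q1 : ∀ a (ha : a ∈ inner H), q a = ⟨a, ha⟩ := by
    intro a ha; simp [hq, ha]
  have q2 : ∀ a (ha : a ∉ inner H), q a = ⟨z a ha, hz a ha⟩ := by
    intro a ha; simp [hq, ha]
  have hstep : ∀ a b, H.Adj a b → (H.induce (inner H)).Reachable (q a) (q b) := by
    intro a b hab
    by_cases ha : a ∈ inner H <;> by_cases hb : b ∈ inner H
    · rw [q1 a ha, q1 b hb]
      exact Adj.reachable (G := H.induce (inner H)) (u := ⟨a, ha⟩) (v := ⟨b, hb⟩) hab
    · have : q b = q a := by
        rw [q1 a ha, q2 b hb]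
        exact Subtype.ext (hz2 b hb a hab.symm).symm
      rw [this]
    · have : q a = q b := by
        rw [q1 b hb, q2 a ha]
        exact Subtype.ext (hz2 a ha b hab).symm
      rw [this]
    · exfalso
      exact hb (hz2 a ha b hab ▸ hz a ha)
  have hwalk : ∀ {a b : W} (w : H.Walk a b), (H.induce (inner H)).Reachable (q a) (q b) := by
    intro a b w
    induction w with
    | nil => exact Reachable.refl _
    | cons h _ ih => exact (hstep _ _ h).trans ih
  refine { preconnected := ?_, nonempty := ⟨⟨_, hne.some_mem⟩⟩ }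
  rintro ⟨a, ha⟩ ⟨b, hb⟩
  obtain ⟨w⟩ := hH.preconnected a b
  have := hwalk w
  rwa [q1 a ha, q1 b hb] at this

/-- if the inner graph is a star, the tree has radius two -/
theorem exists_tree2 [Fintype W] [DecidableEq W] (hH : H.Connected) (hs : ¬ IsStar H)
    (hs' : IsStar (H.induce (inner H))) :
    ∃ (c : W) (S L : Finset W) (p : W → W), Tree2 H c S L p := by
  classical
  obtain ⟨⟨c, hc⟩, hstar⟩ := hs'
  have hstar' : ∀ a ∈ inner H, ∀ b ∈ inner H, H.Adj a b → a = c ∨ b = c := by
    intro a ha b hb hab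
    rcases hstar ⟨a, ha⟩ ⟨b, hb⟩ hab with h | h
    · exact .inl (congrArg Subtype.val h)
    · exact .inr (congrArg Subtype.val h)
  have hconn := inner_connected hH hs
  have hadjc : ∀ v ∈ inner H, v ≠ c → H.Adj c v := by
    intro v hv hvc
    obtain ⟨w⟩ := hconn.preconnected ⟨v, hv⟩ ⟨c, hc⟩
    cases w with
    | nil => exact absurd rfl hvc
    | @cons _ v' _ h _ =>
      have h1 : H.Adj v v' := h
      rcases hstar' v hv v' v'.2 h1 with h2 | h2
      · exact absurd h2 hvc
      · rw [h2] at h1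
        exact h1.symm
  have hpar := exists_parent hH hs
  set z : W → W := fun a => if ha : a ∈ inner H then a else (hpar a ha).choose with hz
  have hz1 : ∀ a ∉ inner H, z a ∈ inner H ∧ H.Adj a (z a) ∧ ∀ b, H.Adj a b → b = z a := by
    intro a ha
    have := (hpar a ha).choose_spec
    simp only [hz, ha, dif_neg, not_false_eq_true]
    exact ⟨this.1, this.2.1, this.2.2⟩
  set S : Finset W := Finset.univ.filter fun a => H.Adj c a with hS
  set L : Finset W := Finset.univ.filter fun a => a ≠ c ∧ ¬ H.Adj c a with hL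
  have mS : ∀ a, a ∈ S ↔ H.Adj c a := by intro a; simp [hS]
  have mL : ∀ a, a ∈ L ↔ a ≠ c ∧ ¬ H.Adj c a := by intro a; simp [hL]
  have hLin : ∀ l ∈ L, l ∉ inner H := by
    intro l hl hin
    rw [mL] at hl
    exact hl.2 (hadjc l hin hl.1)
  have hpL : ∀ l ∈ L, z l ∈ S ∧ H.Adj (z l) l := by
    intro l hl
    have h1 := hz1 l (hLin l hl)
    refine ⟨?_, h1.2.1.symm⟩
    rw [mS]
    apply hadjc _ h1.1
    intro e
    rw [mL] at hl
    exact hl.2 (e ▸ h1.2.1.symm)
  have hcases : ∀ a b, H.Adj a b →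
      (a = c ∧ b ∈ S) ∨ (b = c ∧ a ∈ S) ∨ (b ∈ L ∧ a = z b) ∨ (a ∈ L ∧ b = z a) := by
    intro a b hab
    by_cases hac : a = c
    · subst hac
      exact .inl ⟨rfl, (mS b).2 hab⟩
    by_cases hbc : b = c
    · subst hbc
      exact .inr (.inl ⟨rfl, (mS a).2 hab.symm⟩)
    by_cases hbL : b ∈ L
    · exact .inr (.inr (.inl ⟨hbL, (hz1 b (hLin b hbL)).2.2 a hab.symm⟩))
    by_cases haL : a ∈ L
    · exact .inr (.inr (.inr ⟨haL, (hz1 a (hLin a haL)).2.2 b hab⟩))
    exfalso
    have ha1 : H.Adj c a := by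
      by_contra h
      exact haL ((mL a).2 ⟨hac, h⟩)
    have hb1 : H.Adj c b := by
      by_contra h
      exact hbL ((mL b).2 ⟨hbc, h⟩)
    have ha2 : a ∈ inner H := ⟨c, b, fun e => hbc e.symm, ha1.symm, hab⟩
    have hb2 : b ∈ inner H := ⟨c, a, fun e => hac e.symm, hb1.symm, hab.symm⟩
    rcases hstar' a ha2 b hb2 hab with h | h
    · exact hac h
    · exact hbc h
  refine ⟨c, S, L, z, ⟨hcases, fun s hs => (mS s).1 hs, hpL, ?_, ?_, ?_, ?_, ?_, ?_⟩⟩
  · intro a
    by_cases hac : a = c
    · exact .inl hac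
    · by_cases h1 : H.Adj c a
      · exact .inr (.inl ((mS a).2 h1))
      · exact .inr (.inr ((mL a).2 ⟨hac, h1⟩))
  · rw [mS]
    exact H.loopless.irrefl c
  · rw [mL]
    simp
  · intro a ha ha'
    rw [mS] at ha
    rw [mL] at ha'
    exact ha'.2 ha
  · obtain ⟨a, b, hab, ha, hb⟩ := hc
    have : ({a, b} : Finset W) ⊆ S := by
      intro x hx
      rw [Finset.mem_insert, Finset.mem_singleton] at hx
      rcases hx with rfl | rfl
      · exact (mS _).2 ha
      · exact (mS _).2 hb
    calc 2 = ({a, b} : Finset W).card := (Finset.card_pair hab).symm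
      _ ≤ _ := Finset.card_le_card this
  · rw [Nat.one_le_iff_ne_zero, Ne, Finset.card_eq_zero]
    intro he
    apply hs
    refine ⟨c, fun a b hab => ?_⟩
    rcases hcases a b hab with h | h | h | h
    · exact .inl h.1
    · exact .inr h.1
    · rw [he] at h
      exact absurd h.1 (Finset.notMem_empty _)
    · rw [he] at h
      exact absurd h.1 (Finset.notMem_empty _)

end

/-- non-star trees fail -/
theorem tree_fail_aux (n : ℕ) : ∀ (W : Type u) [Finite W] (H : SimpleGraph W), Nat.card W = n →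
    H.Connected → H.IsAcyclic → ¬ IsStar H → Fail H := by
  classical
  induction n using Nat.strong_induction_on with
  | _ n ih =>
    intro W _ H hn hH hac hs
    have := Fintype.ofFinite W
    by_cases hs' : IsStar (H.induce (inner H))
    · obtain ⟨c, S, L, p, h⟩ := exists_tree2 hH hs hs'
      exact h.fail
    · apply leaf_step hH hs
      have hlt : Nat.card (inner H) < Nat.card W := by
        have hnt : Nontrivial W := by
          by_contra hc
          rw [not_nontrivial_iff_subsingleton] at hc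
          obtain ⟨a⟩ := hH.nonempty
          exact hs ⟨a, fun x _ _ => .inl (Subsingleton.elim _ _)⟩
        obtain ⟨v, hv⟩ := IsTree.exists_vert_degree_one_of_nontrivial (G := H) ⟨hH, hac⟩
        have hvi : v ∉ inner H := by
          rintro ⟨a, b, hab, ha, hb⟩
          have h1 : ({a, b} : Finset W) ⊆ H.neighborFinset v := by
            intro x hx
            rw [Finset.mem_insert, Finset.mem_singleton] at hx
            rcases hx with rfl | rfl
            · simpa using ha
            · simpa using hb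
          have h2 := Finset.card_le_card h1
          rw [Finset.card_pair hab, card_neighborFinset_eq_degree, hv] at h2
          omega
        have : inner H ⊂ Set.univ := by
          rw [Set.ssubset_univ_iff]
          intro e
          exact hvi (e ▸ Set.mem_univ v)
        have h3 := Set.ncard_lt_ncard this (Set.toFinite _)
        rwa [Set.ncard_univ] at h3
      exact ih _ (hn ▸ hlt) (inner H) _ rfl (inner_connected hH hs) (hac.induce _) hs'

theorem tree_fail {W : Type u} [Finite W] {H : SimpleGraph W} (hH : H.Connected)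
    (hac : H.IsAcyclic) (hs : ¬ IsStar H) : Fail H :=
  tree_fail_aux _ W H rfl hH hac hs

section Components

/-- disjoint unions of two families of graphs -/
def mk2 {V1 K W : Type*} (P : ℕ → SimpleGraph V1) (Q : K → SimpleGraph W) :
    SimpleGraph ((ℕ × V1) ⊕ (K × W)) where
  Adj a b := match a, b with
    | .inl (i, u), .inl (j, v) => i = j ∧ (P i).Adj u v
    | .inl _, .inr _ => False
    | .inr _, .inl _ => False
    | .inr (k, u), .inr (l, v) => k = l ∧ (Q k).Adj u v
  symm := ⟨by
    rintro (⟨i, u⟩ | ⟨k, a⟩) (⟨j, v⟩ | ⟨l, b⟩) h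
    · obtain ⟨rfl, h⟩ := h
      exact ⟨rfl, h.symm⟩
    · exact h
    · exact h
    · obtain ⟨rfl, h⟩ := h
      exact ⟨rfl, h.symm⟩⟩
  loopless := ⟨by
    rintro (⟨i, u⟩ | ⟨k, a⟩) h
    · exact (P i).loopless.irrefl _ h.2
    · exact (Q k).loopless.irrefl _ h.2⟩

variable {V1 K W : Type*}

theorem mk2_walk {H : SimpleGraph W} {P : ℕ → SimpleGraph V1} {Q : K → SimpleGraph W}
    (f : H.Copy (mk2 P Q)) {a b : W} (w : H.Reachable a b) :
    (∀ i, (∃ v, f a = .inl (i, v)) → ∃ v, f b = .inl (i, v)) ∧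
    (∀ k, (∃ v, f a = .inr (k, v)) → ∃ v, f b = .inr (k, v)) := by
  obtain ⟨w⟩ := w
  induction w with
  | nil => exact ⟨fun _ h => h, fun _ h => h⟩
  | @cons a c b h _ ih =>
    have h1 : (mk2 P Q).Adj (f a) (f c) := f.toHom.map_adj h
    constructor
    · rintro i ⟨v, hv⟩
      apply ih.1
      rw [hv] at h1
      rcases hc : f c with ⟨j, u⟩ | q
      · rw [hc] at h1
        exact ⟨u, by rw [h1.1]⟩
      · rw [hc] at h1
        exact h1.elim
    · rintro k ⟨v, hv⟩
      apply ih.2
      rw [hv] at h1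
      rcases hc : f c with q | ⟨j, u⟩
      · rw [hc] at h1
        exact h1.elim
      · rw [hc] at h1
        exact ⟨u, by rw [h1.1]⟩

/-- a connected component is mapped to a single block -/
theorem mk2_block {H : SimpleGraph W} {P : ℕ → SimpleGraph V1} {Q : K → SimpleGraph W}
    (f : H.Copy (mk2 P Q)) (C : H.ConnectedComponent) (a : W) (ha : a ∈ C.supp) :
    (∀ i v, f a = .inl (i, v) → C.toSimpleGraph ⊑ P i) ∧
    (∀ k v, f a = .inr (k, v) → C.toSimpleGraph ⊑ Q k) := by
  have hr : ∀ b : C, H.Reachable a b := by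
    rintro ⟨b, hb⟩
    have ha' : H.connectedComponentMk a = C := ha
    have hb' : H.connectedComponentMk b = C := hb
    exact ConnectedComponent.exact (ha'.trans hb'.symm)
  constructor
  · intro i v hv
    have : ∀ b : C, ∃ u, f b = .inl (i, u) := fun b => (mk2_walk f (hr b)).1 i ⟨v, hv⟩
    choose g hg using this
    refine contained_of g ?_ ?_
    · intro x y hxy
      have : f x = f y := by rw [hg, hg, hxy]
      exact Subtype.ext (f.injective this)
    · intro x y hxy
      have h1 : (mk2 P Q).Adj (f x) (f y) := f.toHom.map_adj hxy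
      rw [hg, hg] at h1
      exact h1.2
  · intro k v hv
    have : ∀ b : C, ∃ u, f b = .inr (k, u) := fun b => (mk2_walk f (hr b)).2 k ⟨v, hv⟩
    choose g hg using this
    refine contained_of g ?_ ?_
    · intro x y hxy
      have : f x = f y := by rw [hg, hg, hxy]
      exact Subtype.ext (f.injective this)
    · intro x y hxy
      have h1 : (mk2 P Q).Adj (f x) (f y) := f.toHom.map_adj hxy
      rw [hg, hg] at h1
      exact h1.2


open Cardinal in
/-- a failing maximal component makes the whole graph fail -/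
theorem comp_step {W : Type} [Finite W] {H : SimpleGraph W} (C1 : H.ConnectedComponent)
    (hedge : ∃ a b, C1.toSimpleGraph.Adj a b) (hfail : Fail C1.toSimpleGraph)
    (hmaxC : ∀ C : H.ConnectedComponent, C1.toSimpleGraph ⊑ C.toSimpleGraph →
      C.toSimpleGraph ⊑ C1.toSimpleGraph) : Fail H := by
  classical
  obtain ⟨V1, G1, hG1⟩ := hfail
  have hV1 : Nonempty V1 := by
    by_contra hc
    rw [not_nonempty_iff] at hc
    obtain ⟨I, hI, -, hlt⟩ := hG1 ⊥ bot_le (by
      rintro ⟨f⟩
      obtain ⟨a, -⟩ := hedge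
      exact hc.elim (f a))
    have : I = ⊥ := Subsingleton.elim _ _
    rw [this] at hlt
    exact lt_irrefl _ hlt
  set B : Set W := {w | C1.toSimpleGraph ⊑ (H.connectedComponentMk w).toSimpleGraph} with hB
  have hBadj : ∀ a b, H.Adj a b → (a ∈ B ↔ b ∈ B) := by
    intro a b hab
    have : H.connectedComponentMk a = H.connectedComponentMk b :=
      ConnectedComponent.sound hab.reachable
    rw [hB, Set.mem_ofPred_eq, Set.mem_ofPred_eq, this]
  set HR : SimpleGraph W :=
    { Adj := fun a b => H.Adj a b ∧ a ∉ B ∧ b ∉ B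
      symm := ⟨fun a b h => ⟨h.1.symm, h.2.2, h.2.1⟩⟩
      loopless := ⟨fun a h => H.loopless.irrefl _ h.1⟩ } with hHR
  have hHRle : HR ≤ H := fun u v huv => huv.1
  have hnotHR : ¬ C1.toSimpleGraph ⊑ HR := by
    rintro ⟨g⟩
    obtain ⟨a, b, hab⟩ := hedge
    have h1 : HR.Adj (g a) (g b) := g.toHom.map_adj hab
    apply h1.2.1
    have hr : ∀ x, H.connectedComponentMk (g x) = H.connectedComponentMk (g a) := by
      intro x
      apply ConnectedComponent.sound
      have h2 : C1.toSimpleGraph.Reachable x a := C1.connected_toSimpleGraph.preconnected x a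
      have h3 : HR.Reachable (g x) (g a) := h2.map g.toHom
      exact h3.mono hHRle
    refine contained_of (fun x => ⟨g x, hr x⟩) ?_ ?_
    · intro x y hxy
      exact g.injective (congrArg Subtype.val hxy)
    · intro x y hxy
      have h2 : HR.Adj (g x) (g y) := g.toHom.map_adj hxy
      exact h2.1
  set K : Type := Set (V1 ⊕ ℕ) with hK
  refine ⟨(ℕ × V1) ⊕ (K × W), mk2 (fun _ => G1) (fun _ : K => HR), fun F hF hFree => ?_⟩
  -- the pieces of `F`
  set P : ℕ → SimpleGraph V1 := fun i => F.comap fun v => (.inl (i, v) : (ℕ × V1) ⊕ (K × W)) with hP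
  set Q : K → SimpleGraph W := fun k => F.comap fun v => (.inr (k, v) : (ℕ × V1) ⊕ (K × W)) with hQ
  have hFeq : ∀ a b, F.Adj a b ↔ (mk2 P Q).Adj a b := by
    intro a b
    constructor
    · intro h
      have h1 := hF h
      rcases a with ⟨i, u⟩ | ⟨k, a⟩ <;> rcases b with ⟨j, v⟩ | ⟨l, b⟩
      · obtain ⟨rfl, -⟩ := h1
        exact ⟨rfl, h⟩
      · exact h1.elim
      · exact h1.elim
      · obtain ⟨rfl, -⟩ := h1
        exact ⟨rfl, h⟩
    · intro h
      rcases a with ⟨i, u⟩ | ⟨k, a⟩ <;> rcases b with ⟨j, v⟩ | ⟨l, b⟩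
      · obtain ⟨rfl, h⟩ := h
        exact h
      · exact h.elim
      · exact h.elim
      · obtain ⟨rfl, h⟩ := h
        exact h
  have hPG : ∀ i, P i ≤ G1 := fun i u v h => (hF h).2
  have hQH : ∀ k, Q k ≤ HR := fun k u v h => (hF h).2
  have hbig : #(Sym2 (ℕ × V1)) < #K := by
    have h1 : #(Sym2 (ℕ × V1)) ≤ #((ℕ × V1) × (ℕ × V1)) :=
      Cardinal.mk_le_of_surjective (Quot.mk_surjective)
    have h2 : #((ℕ × V1) × (ℕ × V1)) ≤ #(V1 ⊕ ℕ) := by
      rw [Cardinal.mk_prod, Cardinal.mk_prod, Cardinal.mk_sum]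
      simp only [Cardinal.lift_id, Cardinal.mk_nat]
      have h3 : #V1 ≤ #V1 + ℵ₀ := self_le_add_right _ _
      have h4 : ℵ₀ ≤ #V1 + ℵ₀ := self_le_add_left _ _
      calc ℵ₀ * #V1 * (ℵ₀ * #V1) ≤ (#V1 + ℵ₀) * (#V1 + ℵ₀) * ((#V1 + ℵ₀) * (#V1 + ℵ₀)) :=
            mul_le_mul' (mul_le_mul' h4 h3) (mul_le_mul' h4 h3)
        _ = #V1 + ℵ₀ := by rw [Cardinal.mul_eq_self h4, Cardinal.mul_eq_self h4]
    calc #(Sym2 (ℕ × V1)) ≤ #(V1 ⊕ ℕ) := h1.trans h2
      _ < #K := by rw [hK, Cardinal.mk_set]; exact Cardinal.cantor _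
  by_cases hfull : ∃ k0, HR ≤ Q k0
  swap
  · -- no full copy of the rest
    push Not at hfull
    have hmiss : ∀ k, ∃ a b, HR.Adj a b ∧ ¬ F.Adj (.inr (k, a)) (.inr (k, b)) := by
      intro k
      have := hfull k
      rw [SimpleGraph.le_iff_adj] at this
      push Not at this
      exact this
    choose x y hxy hxy' using hmiss
    refine ⟨mk2 (fun _ => ⊥) (fun _ => HR), ?_, ?_, ?_⟩
    · rintro (⟨i, u⟩ | ⟨k, a⟩) (⟨j, v⟩ | ⟨l, b⟩) h
      · exact h.2.elim
      · exact h
      · exact h
      · exact h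
    · rintro ⟨f⟩
      obtain ⟨a, b, hab⟩ := hedge
      have hb := mk2_block f C1 a a.2
      rcases hfa : f a with ⟨i, v⟩ | ⟨k, v⟩
      · have h1 := hb.1 i v hfa
        obtain ⟨g⟩ := h1
        exact g.toHom.map_adj hab
      · exact hnotHR (hb.2 k v hfa)
    · have h1 : #↥(F.edgeSet \ (mk2 (fun _ => (⊥ : SimpleGraph V1)) (fun _ : K => HR)).edgeSet) ≤
          #(Sym2 (ℕ × V1)) := by
        have : F.edgeSet \ (mk2 (fun _ => (⊥ : SimpleGraph V1)) (fun _ : K => HR)).edgeSet ⊆
            Set.range (Sym2.map (Sum.inl : (ℕ × V1) → (ℕ × V1) ⊕ (K × W))) := by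
          intro e
          induction e with
          | _ a b =>
            rintro ⟨he, hne⟩
            rw [mem_edgeSet] at he hne
            have h2 := hF he
            rcases a with u | ⟨v, k⟩ <;> rcases b with u' | ⟨v', k'⟩
            · exact ⟨s(u, u'), by simp⟩
            · exact h2.elim
            · exact h2.elim
            · exact absurd h2 hne
        exact (Cardinal.mk_le_mk_of_subset this).trans Cardinal.mk_range_le
      have h2 : #K ≤ #↥((mk2 (fun _ => (⊥ : SimpleGraph V1)) (fun _ : K => HR)).edgeSet \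
          F.edgeSet) := by
        refine Cardinal.mk_le_of_injective
          (f := fun k => ⟨s(.inr (k, x k), .inr (k, y k)), ?_, ?_⟩) ?_
        · exact ⟨rfl, hxy k⟩
        · exact hxy' k
        · intro k k' hkk
          simp only [Subtype.mk.injEq, Sym2.eq_iff, Sum.inr.injEq, Prod.mk.injEq] at hkk
          rcases hkk with h | h
          · exact h.1.1
          · exact h.1.1
      exact h1.trans_lt (hbig.trans_le h2)
  obtain ⟨k0, hk0⟩ := hfull
  -- some block is `C1`-free
  have hblk : ∃ i, C1.toSimpleGraph.Free (P i) := by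
    by_contra hc
    have hc' : ∀ i, C1.toSimpleGraph ⊑ P i := by
      intro i
      by_contra h
      exact hc ⟨i, h⟩
    obtain ⟨ι⟩ : Nonempty (H.ConnectedComponent ↪ ℕ) := by
      have : Finite H.ConnectedComponent :=
        Finite.of_surjective H.connectedComponentMk Quot.mk_surjective
      exact ⟨(Finite.equivFin _).toEmbedding.trans Fin.valEmbedding⟩
    have hcopy : ∀ C : H.ConnectedComponent, C1.toSimpleGraph ⊑ C.toSimpleGraph →
        ∃ φ : W → V1, (∀ a ∈ C.supp, ∀ b ∈ C.supp, φ a = φ b → a = b) ∧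
          ∀ a ∈ C.supp, ∀ b ∈ C.supp, H.Adj a b → (P (ι C)).Adj (φ a) (φ b) := by
      intro C hC
      obtain ⟨g⟩ := (hmaxC C hC).trans (hc' (ι C))
      refine ⟨fun w => if hw : w ∈ C.supp then g ⟨w, hw⟩ else Classical.arbitrary V1, ?_, ?_⟩
      · intro a ha b hb hab
        simp only [ha, hb, dif_pos] at hab
        have := g.injective hab
        simpa using this
      · intro a ha b hb hab
        simp only [ha, hb, dif_pos]
        have h1 : C.toSimpleGraph.Adj ⟨a, ha⟩ ⟨b, hb⟩ := hab
        exact g.toHom.map_adj h1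
    choose! φ hφ1 hφ2 using hcopy
    refine hFree (contained_of (fun w => if w ∈ B then
      .inl (ι (H.connectedComponentMk w), φ (H.connectedComponentMk w) w) else .inr (k0, w)) ?_ ?_)
    · intro a b hab
      by_cases ha : a ∈ B <;> by_cases hb : b ∈ B
      · simp only [ha, hb, if_true, Sum.inl.injEq, Prod.mk.injEq] at hab
        have h1 := ι.injective hab.1
        rw [← h1] at hab
        exact hφ1 _ ha a rfl b h1.symm hab.2
      · simp [ha, hb] at hab
      · simp [ha, hb] at hab
      · simp only [ha, hb, if_false, Sum.inr.injEq, Prod.mk.injEq] at hab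
        exact hab.2
    · intro a b hab
      have hmk : H.connectedComponentMk a = H.connectedComponentMk b :=
        ConnectedComponent.sound hab.reachable
      rw [hFeq]
      by_cases ha : a ∈ B
      · have hb := (hBadj a b hab).1 ha
        simp only [ha, hb, if_true]
        rw [← hmk]
        exact ⟨rfl, hφ2 _ ha a rfl b hmk.symm hab⟩
      · have hb : b ∉ B := fun h => ha ((hBadj a b hab).2 h)
        simp only [ha, hb, if_false]
        exact ⟨rfl, hk0 ⟨hab, ha, hb⟩⟩
  obtain ⟨i, hi⟩ := hblk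
  obtain ⟨J, hJ, hJfree, hJlt⟩ := hG1 (P i) (hPG i) hi
  refine ⟨mk2 (fun j => if j = i then J else P j) Q, ?_, ?_, ?_⟩
  · rintro (⟨j, u⟩ | ⟨k, a⟩) (⟨j', v⟩ | ⟨l, b⟩) h
    · obtain ⟨h1, h2⟩ := h
      refine ⟨h1, ?_⟩
      by_cases hj : j = i
      · simp only [hj, if_true] at h2
        exact hJ h2
      · simp only [hj, if_false] at h2
        exact hPG j h2
    · exact h
    · exact h
    · exact ⟨h.1, hQH _ h.2⟩
  · rintro ⟨f⟩
    have hpos : ∀ w ∈ B, ∃ j v, j ≠ i ∧ f w = .inl (j, v) := by
      intro w hw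
      have hb := mk2_block f (H.connectedComponentMk w) w rfl
      rcases hfw : f w with ⟨j, v⟩ | ⟨k, v⟩
      · refine ⟨j, v, ?_, rfl⟩
        rintro rfl
        have h1 := hb.1 j v hfw
        simp only [if_true] at h1
        exact hJfree (IsContained.trans hw h1)
      · exfalso
        have h1 := hb.2 k v hfw
        obtain ⟨g⟩ := IsContained.trans hw h1
        exact hnotHR (contained_of g g.injective fun a b hab => hQH k (g.toHom.map_adj hab))
    refine hFree (contained_of (fun w => if w ∈ B then f w else .inr (k0, w)) ?_ ?_)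
    · intro a b hab
      by_cases ha : a ∈ B <;> by_cases hb : b ∈ B
      · simp only [ha, hb, if_true] at hab
        exact f.injective hab
      · exfalso
        simp only [ha, hb, if_true, if_false] at hab
        obtain ⟨j, v, -, h⟩ := hpos a ha
        rw [h] at hab
        simp at hab
      · exfalso
        simp only [ha, hb, if_true, if_false] at hab
        obtain ⟨j, v, -, h⟩ := hpos b hb
        rw [h] at hab
        simp at hab
      · simp only [ha, hb, if_false, Sum.inr.injEq, Prod.mk.injEq] at hab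
        exact hab.2
    · intro a b hab
      rw [hFeq]
      by_cases ha : a ∈ B
      · have hb := (hBadj a b hab).1 ha
        simp only [ha, hb, if_true]
        have h1 : (mk2 (fun j => if j = i then J else P j) Q).Adj (f a) (f b) :=
          f.toHom.map_adj hab
        obtain ⟨j, v, hj, h⟩ := hpos a ha
        obtain ⟨j', v', hj', h'⟩ := hpos b hb
        rw [h, h'] at h1 ⊢
        obtain ⟨h2, h3⟩ := h1
        simp only [hj, if_false] at h3
        exact ⟨h2, h3⟩
      · have hb : b ∉ B := fun h => ha ((hBadj a b hab).2 h)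
        simp only [ha, hb, if_false]
        exact ⟨rfl, hk0 ⟨hab, ha, hb⟩⟩
  · set ε : V1 → (ℕ × V1) ⊕ (K × W) := fun v => .inl (i, v) with hε
    have hεinj : Function.Injective ε := by
      intro u v huv
      simpa [hε] using huv
    have hinj : Function.Injective (Sym2.map ε) := Sym2.map.injective hεinj
    have h1 : #↥(F.edgeSet \ (mk2 (fun j => if j = i then J else P j) Q).edgeSet) ≤
        #↥((P i).edgeSet \ J.edgeSet) := by
      have : F.edgeSet \ (mk2 (fun j => if j = i then J else P j) Q).edgeSet ⊆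
          Sym2.map ε '' ((P i).edgeSet \ J.edgeSet) := by
        intro e
        induction e with
        | _ a b =>
          rintro ⟨he, hne⟩
          rw [mem_edgeSet] at he hne
          have he' := (hFeq _ _).1 he
          rcases a with ⟨j, u⟩ | ⟨k, a⟩ <;> rcases b with ⟨j', v⟩ | ⟨l, b⟩
          · obtain ⟨rfl, h2⟩ := he'
            have hj : j = i := by
              by_contra hc
              apply hne
              refine ⟨rfl, ?_⟩
              simp only [hc, if_false]
              exact h2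
            subst hj
            refine ⟨s(u, v), ⟨h2, fun h3 => hne ⟨rfl, ?_⟩⟩, by simp [hε]⟩
            simp only [if_true]
            exact h3
          · exact he'.elim
          · exact he'.elim
          · exact absurd he' hne
      exact (Cardinal.mk_le_mk_of_subset this).trans Cardinal.mk_image_le
    have h2 : #↥(J.edgeSet \ (P i).edgeSet) ≤
        #↥((mk2 (fun j => if j = i then J else P j) Q).edgeSet \ F.edgeSet) := by
      rw [← Cardinal.mk_image_eq hinj]
      refine Cardinal.mk_le_mk_of_subset ?_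
      rintro _ ⟨e, he, rfl⟩
      induction e with
      | _ a b =>
        refine ⟨⟨rfl, ?_⟩, he.2⟩
        simp only [if_true]
        exact he.1
    exact h1.trans_lt (hJlt.trans_le h2)

end Components
section StarForests

/-- sets of rapidly increasing size -/
def AA : ℕ → Type
  | 0 => ℕ
  | n + 1 => Set (AA n)

open Cardinal in
theorem AA_lt (n : ℕ) : #(AA n) < #(AA (n + 1)) := by
  change #(AA n) < #(Set (AA n))
  rw [Cardinal.mk_set]
  exact Cardinal.cantor _

open Cardinal in
theorem AA_mono : Monotone fun n => #(AA n) := monotone_nat_of_le_succ fun n => (AA_lt n).le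

open Cardinal in
theorem AA_inf (n : ℕ) : ℵ₀ ≤ #(AA n) := by
  have h : #(AA 0) ≤ #(AA n) := AA_mono (Nat.zero_le n)
  have h0 : #(AA 0) = ℵ₀ := Cardinal.mk_nat
  rwa [h0] at h

/-- a disjoint union of stars, the `n`-th one with leaves `P n` -/
def stars (P : ∀ n, Set (AA n)) : SimpleGraph (Σ n, Option (AA n)) where
  Adj x y := ∃ n, ∃ a ∈ P n, (x = ⟨n, none⟩ ∧ y = ⟨n, some a⟩) ∨ (y = ⟨n, none⟩ ∧ x = ⟨n, some a⟩)
  symm := ⟨by
    rintro x y ⟨n, a, ha, h | h⟩
    · exact ⟨n, a, ha, .inr h⟩
    · exact ⟨n, a, ha, .inl h⟩⟩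
  loopless := ⟨by
    rintro x ⟨n, a, ha, ⟨rfl, h⟩ | ⟨rfl, h⟩⟩ <;> simp at h⟩

open Cardinal in
/-- star forests which are not stars fail -/
theorem star_forest_fail {W : Type} [Finite W] {H : SimpleGraph W}
    (hC : ∀ C : H.ConnectedComponent, IsStar C.toSimpleGraph) (hs : ¬ IsStar H) : Fail H := by
  classical
  refine ⟨Σ n, Option (AA n), stars fun _ => Set.univ, fun F hF hFree => ?_⟩
  have hW : Nonempty W := by
    by_contra hc
    rw [not_nonempty_iff] at hc
    exact hFree (contained_of (fun w => hc.elim w) (fun w => hc.elim w) fun w => hc.elim w)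
  set P : ∀ n, Set (AA n) := fun n => {a | F.Adj ⟨n, none⟩ ⟨n, some a⟩} with hP
  set T : Set ℕ := {n | ∃ A : Finset (AA n), ↑A ⊆ P n ∧ Nat.card W ≤ A.card} with hT
  have hTfin : T.Finite := by
    by_contra hinf
    have hinf' : T.Infinite := hinf
    have hfinC : Finite H.ConnectedComponent :=
      Finite.of_surjective H.connectedComponentMk Quot.mk_surjective
    obtain ⟨ι, hι⟩ : ∃ ι : H.ConnectedComponent → ℕ, Function.Injective ι ∧ ∀ C, ι C ∈ T := by
      refine sdr (fun _ => T) fun _ => ?_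
      obtain ⟨A, hA, hA'⟩ := hinf'.exists_subset_card_eq (Nat.card H.ConnectedComponent)
      exact ⟨A, hA, hA'.ge⟩
    have hchoose : ∀ C : H.ConnectedComponent, ∃ φ : W → AA (ι C),
        Function.Injective φ ∧ ∀ w, φ w ∈ P (ι C) := by
      intro C
      obtain ⟨A, hA, hA'⟩ := hι.2 C
      exact sdr (fun _ => P (ι C)) fun _ => ⟨A, hA, hA'⟩
    choose φ hφ hφP using hchoose
    choose z hz using hC
    set f : W → Σ n, Option (AA n) := fun w =>
      if w = z (H.connectedComponentMk w) then ⟨ι (H.connectedComponentMk w), none⟩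
      else ⟨ι (H.connectedComponentMk w), some (φ (H.connectedComponentMk w) w)⟩ with hf
    have f1 : ∀ C w, H.connectedComponentMk w = C → w = z C → f w = ⟨ι C, none⟩ := by
      rintro C w rfl h
      simp only [hf]
      rw [if_pos h]
    have f2 : ∀ C w, H.connectedComponentMk w = C → w ≠ z C → f w = ⟨ι C, some (φ C w)⟩ := by
      rintro C w rfl h
      simp only [hf]
      rw [if_neg h]
    have f3 : ∀ w, (f w).1 = ι (H.connectedComponentMk w) := by
      intro w
      by_cases h : w = z (H.connectedComponentMk w)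
      · rw [f1 _ w rfl h]
      · rw [f2 _ w rfl h]
    refine hFree (contained_of f ?_ ?_)
    · intro a b hab
      have h1 : H.connectedComponentMk a = H.connectedComponentMk b := by
        apply hι.1
        rw [← f3, ← f3, hab]
      obtain ⟨C, hC⟩ : ∃ C, H.connectedComponentMk a = C := ⟨_, rfl⟩
      have hC' : H.connectedComponentMk b = C := h1 ▸ hC
      by_cases ha : a = z C <;> by_cases hb : b = z C
      · rw [ha, hb]
      · rw [f1 C a hC ha, f2 C b hC' hb] at hab
        simp at hab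
      · rw [f2 C a hC ha, f1 C b hC' hb] at hab
        simp at hab
      · rw [f2 C a hC ha, f2 C b hC' hb] at hab
        simp only [Sigma.mk.injEq, heq_eq_eq, Option.some.injEq, true_and] at hab
        exact hφ C hab
    · intro a b hab
      obtain ⟨C, hC⟩ : ∃ C, H.connectedComponentMk a = C := ⟨_, rfl⟩
      have hC' : H.connectedComponentMk b = C := by
        rw [← hC]
        exact (ConnectedComponent.sound hab.reachable).symm
      rcases hz C ⟨a, hC⟩ ⟨b, hC'⟩ hab with h | h
      · have ha : a = z C := congrArg Subtype.val h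
        have hb : b ≠ z C := fun e => hab.ne (ha.trans e.symm)
        rw [f1 C a hC ha, f2 C b hC' hb]
        exact hφP C b
      · have hb : b = z C := congrArg Subtype.val h
        have ha : a ≠ z C := fun e => hab.ne (e.trans hb.symm)
        rw [f1 C b hC' hb, f2 C a hC ha]
        exact (hφP C a).symm
  obtain ⟨N, hN⟩ : ∃ N, ∀ n ∈ T, n < N + 1 := by
    obtain ⟨N, hN⟩ := hTfin.bddAbove
    exact ⟨N, fun n hn => Nat.lt_succ_of_le (hN hn)⟩
  have hPfin : ∀ n, N < n → (P n).Finite := by
    intro n hn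
    by_contra hinf
    have hinf' : (P n).Infinite := hinf
    obtain ⟨A, hA, hA'⟩ := hinf'.exists_subset_card_eq (Nat.card W)
    have := hN n ⟨A, hA, hA'.ge⟩
    omega
  refine ⟨stars fun n => if n = N + 1 then Set.univ else ∅, ?_, ?_, ?_⟩
  · rintro x y ⟨n, a, -, h⟩
    exact ⟨n, a, trivial, h⟩
  · rintro ⟨f⟩
    have hcen : ∀ a b, H.Adj a b → f a = ⟨N + 1, none⟩ ∨ f b = ⟨N + 1, none⟩ := by
      intro a b hab
      obtain ⟨n, x, hx, h⟩ : (stars fun n => if n = N + 1 then Set.univ else ∅).Adj (f a) (f b) :=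
        f.toHom.map_adj hab
      by_cases hn : n = N + 1
      · subst hn
        rcases h with h | h
        · exact .inl h.1
        · exact .inr h.1
      · simp [hn] at hx
    apply hs
    by_cases hw : ∃ w, f w = ⟨N + 1, none⟩
    · obtain ⟨w, hw⟩ := hw
      refine ⟨w, fun a b hab => ?_⟩
      rcases hcen a b hab with h | h
      · exact .inl (f.injective (h.trans hw.symm))
      · exact .inr (f.injective (h.trans hw.symm))
    · obtain ⟨w⟩ := hW
      refine ⟨w, fun a b hab => ?_⟩
      exfalso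
      rcases hcen a b hab with h | h
      · exact hw ⟨a, h⟩
      · exact hw ⟨b, h⟩
  · have hFP : F.edgeSet ⊆ Set.range (fun q : Σ n, P n =>
        (s(⟨q.1, none⟩, ⟨q.1, some q.2.1⟩) : Sym2 (Σ n, Option (AA n)))) := by
      intro e
      induction e with
      | _ x y =>
        intro he
        rw [mem_edgeSet] at he
        obtain ⟨n, a, -, ⟨rfl, rfl⟩ | ⟨rfl, rfl⟩⟩ := hF he
        · exact ⟨⟨n, a, he⟩, rfl⟩
        · exact ⟨⟨n, a, he.symm⟩, Sym2.eq_swap⟩
    have hPle : ∀ n, #(P n) ≤ #(AA N) := by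
      intro n
      rcases le_or_gt n N with hn | hn
      · exact (Cardinal.mk_set_le _).trans (AA_mono hn)
      · exact (Cardinal.lt_aleph0_iff_set_finite.2 (hPfin n hn)).le.trans (AA_inf N)
    have h1 : #F.edgeSet ≤ #(AA N) := by
      calc #F.edgeSet ≤ _ := Cardinal.mk_le_mk_of_subset hFP
        _ ≤ #(Σ n, P n) := Cardinal.mk_range_le
        _ = Cardinal.sum fun n => #(P n) := Cardinal.mk_sigma _
        _ ≤ Cardinal.sum fun _ : ℕ => #(AA N) := Cardinal.sum_le_sum _ _ hPle
        _ = #(AA N) := by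
          rw [Cardinal.sum_const', Cardinal.mk_nat]
          exact Cardinal.mul_eq_right (AA_inf N) (AA_inf N) Cardinal.aleph0_ne_zero
    have h2 : #(AA (N + 1)) ≤ #↥((stars fun n => if n = N + 1 then Set.univ else ∅).edgeSet \
        F.edgeSet) := by
      have h3 : #↥((P (N + 1))ᶜ) = #(AA (N + 1)) := by
        have : Infinite (AA (N + 1)) := Cardinal.infinite_iff.2 (AA_inf _)
        exact Cardinal.mk_compl_of_infinite _
          ((Cardinal.lt_aleph0_iff_set_finite.2 (hPfin (N + 1) (Nat.lt_succ_self N))).trans_le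
            (AA_inf _))
      rw [← h3]
      refine Cardinal.mk_le_of_injective
        (f := fun a => ⟨s(⟨N + 1, none⟩, ⟨N + 1, some a.1⟩), ?_, ?_⟩) ?_
      · exact ⟨N + 1, a.1, by simp, .inl ⟨rfl, rfl⟩⟩
      · exact a.2
      · intro a a' haa
        simpa [Subtype.ext_iff] using haa
    calc _ ≤ #F.edgeSet := Cardinal.mk_le_mk_of_subset Set.sdiff_subset
      _ ≤ #(AA N) := h1
      _ < #(AA (N + 1)) := AA_lt N
      _ ≤ _ := h2

end StarForests

theorem star_of_contained {A B : Type*} [Nonempty A] {G : SimpleGraph A} {G' : SimpleGraph B}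
    (h : G ⊑ G') (hs : IsStar G') : IsStar G := by
  obtain ⟨f⟩ := h
  obtain ⟨v, hv⟩ := hs
  by_cases hw : ∃ w, f w = v
  · obtain ⟨w, hw⟩ := hw
    refine ⟨w, fun a b hab => ?_⟩
    rcases hv _ _ (f.toHom.map_adj hab) with h | h
    · exact .inl (f.injective (h.trans hw.symm))
    · exact .inr (f.injective (h.trans hw.symm))
  · obtain ⟨w⟩ := ‹Nonempty A›
    refine ⟨w, fun a b hab => ?_⟩
    exfalso
    rcases hv _ _ (f.toHom.map_adj hab) with h | h
    · exact hw ⟨a, h⟩
    · exact hw ⟨b, h⟩

/-- all forests which are not stars fail -/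
theorem forest_fail {W : Type} [Finite W] {H : SimpleGraph W} (hac : H.IsAcyclic)
    (hs : ¬ IsStar H) : Fail H := by
  classical
  by_cases hall : ∀ C : H.ConnectedComponent, IsStar C.toSimpleGraph
  · exact star_forest_fail hall hs
  push Not at hall
  have hfinC : Finite H.ConnectedComponent :=
    Finite.of_surjective H.connectedComponentMk Quot.mk_surjective
  obtain ⟨C1, hC1, hmax⟩ : ∃ C1 : H.ConnectedComponent, ¬ IsStar C1.toSimpleGraph ∧
      ∀ C : H.ConnectedComponent, ¬ IsStar C.toSimpleGraph →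
        C1.toSimpleGraph ⊑ C.toSimpleGraph → C.toSimpleGraph ⊑ C1.toSimpleGraph := by
    let _ : Preorder H.ConnectedComponent :=
      { le := fun C C' => C.toSimpleGraph ⊑ C'.toSimpleGraph
        le_refl := fun C => IsContained.refl _
        le_trans := fun _ _ _ h h' => IsContained.trans h h' }
    obtain ⟨C1, h1⟩ := Set.Finite.exists_maximal
      (s := {C : H.ConnectedComponent | ¬ IsStar C.toSimpleGraph}) (Set.toFinite _) hall
    exact ⟨C1, h1.1, fun C hC hle => h1.2 hC hle⟩
  have hconn := C1.connected_toSimpleGraph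
  have hedge : ∃ a b, C1.toSimpleGraph.Adj a b := by
    by_contra hc
    push Not at hc
    obtain ⟨a⟩ := hconn.nonempty
    exact hC1 ⟨a, fun x y hxy => absurd hxy (hc x y)⟩
  refine comp_step C1 hedge (tree_fail hconn (hac.induce _) hC1) fun C hC => ?_
  apply hmax C _ hC
  intro hst
  have := hconn.nonempty
  exact hC1 (star_of_contained hC hst)
/-- `F` is an `H`-free set of edges of `G`: the spanning subgraph `(V, F)` contains no subgraph
isomorphic to `H`. -/
def IsFreeEdgeSet {W V : Type} (H : SimpleGraph W) (G : SimpleGraph V) (F : Set (Sym2 V)) : Prop :=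
  F ⊆ G.edgeSet ∧ H.Free (SimpleGraph.fromEdgeSet F)

/-- `F` is a strongly maximal `H`-free set of edges of `G`: `|I \ F| ≤ |F \ I|` (as cardinals) for
all `H`-free sets `I` of edges of `G`. -/
def IsStronglyMaximal {W V : Type} (H : SimpleGraph W) (G : SimpleGraph V)
    (F : Set (Sym2 V)) : Prop :=
  IsFreeEdgeSet H G F ∧
    ∀ I : Set (Sym2 V), IsFreeEdgeSet H G I → Cardinal.mk ↥(I \ F) ≤ Cardinal.mk ↥(F \ I)

theorem Fail.spec {W : Type} {H : SimpleGraph W} (h : Fail H) :
    ∃ (V : Type) (G : SimpleGraph V), ¬ ∃ F : Set (Sym2 V), IsStronglyMaximal H G F := by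
  obtain ⟨V, G, hG⟩ := h
  refine ⟨V, G, ?_⟩
  rintro ⟨F, ⟨hFG, hFfree⟩, hmax⟩
  have hedge : (SimpleGraph.fromEdgeSet F).edgeSet = F := by
    rw [SimpleGraph.edgeSet_fromEdgeSet]
    refine sdiff_eq_left.2 ?_
    rw [Set.disjoint_left]
    intro e he hd
    exact G.not_isDiag_of_mem_edgeSet (hFG he) hd
  obtain ⟨I, hI, hIfree, hlt⟩ := hG (SimpleGraph.fromEdgeSet F) (by
    rw [← SimpleGraph.edgeSet_subset_edgeSet, hedge]
    exact hFG) hFfree
  rw [hedge] at hlt
  refine absurd hlt (not_lt.2 (hmax I.edgeSet ⟨SimpleGraph.edgeSet_mono hI, ?_⟩))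
  rwa [SimpleGraph.fromEdgeSet_edgeSet]

/-- Let `H` be a finite forest such that every graph `G` has a strongly maximal `H`-free edge set.
Then `H` is a star, up to isolated vertices: all edges of `H` have a common vertex. -/
theorem result {W : Type} [Finite W] (H : SimpleGraph W) (hforest : H.IsAcyclic)
    (hH : ∀ (V : Type) (G : SimpleGraph V), ∃ F : Set (Sym2 V), IsStronglyMaximal H G F) :
    ∃ v, ∀ e ∈ H.edgeSet, v ∈ e := by
  by_contra hcon
  have hs : ¬ IsStar H := by
    rintro ⟨v, hv⟩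
    apply hcon
    refine ⟨v, fun e => ?_⟩
    induction e with
    | _ a b =>
      intro he
      rcases hv a b he with rfl | rfl
      · exact Sym2.mem_mk_left _ _
      · exact Sym2.mem_mk_right _ _
  obtain ⟨V, G, hG⟩ := (forest_fail hforest hs).spec
  exact hG (hH V G)
end Pool.Agent.Results.MP_fc2b6d_co.Forests
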